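import Pool.Agent.P.MP_471da3_lc.D.Scan

/-!
Invariants of the construction.
-/

namespace Pool.Agent.P.MP_471da3_lc.D

open Pool.Agent.Lib.Comp Filter

/-- From `c` on, everything below some number never enumerated is jumped over. -/
def Data.Tail (R : Data) (s c : ℕ) : Prop := ∃ f, c ≤ f ∧ f ≤ s ∧ R.u s f = 0 ∧
  ∀ x, c ≤ x → x < f → ∃ y, c ≤ y ∧ y ≤ x ∧ R.a s y = true ∧ x < R.u s y

/-- The state of the first set that the node `γ` can restore. -/
def Data.wit (R : Data) (s γ y : ℕ) : Bool := if γ < y then R.wA s γ y else R.a s y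

namespace Spec
variable {R : Data} (h : Spec R)
include h

theorem st_old {s x : ℕ} (hx : x < s) (l : R.st (s + 1) x ≠ 0) :
    (R.ev s x = 2 ∧ R.st s x = 3 ∧ R.st (s + 1) x = 2) ∨
    (R.ev s x = 3 ∧ R.st s x = 3 ∧ R.st (s + 1) x = 4) ∨
    (R.ev s x = 4 ∧ R.st s x = 2 ∧ R.st (s + 1) x = 3) ∨
    (R.ev s x = 5 ∧ R.st s x = 2 ∧ R.st (s + 1) x = 4) ∨
    (R.ev s x = 6 ∧ R.st (s + 1) x = R.st s x) :=
  ((h.st_succ l).resolve_left hx.ne).2

theorem W4 {s γ δ : ℕ} (e : R.st s γ = 2) (hδ : γ < δ) (l : R.st s δ ≠ 0) (d : ¬R.Desc s γ δ) :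
    R.cA s γ ≤ δ := by
  induction s with
  | zero => exact absurd (h.live_lt l) (by omega)
  | succ s ih =>
    have h0 := h.live_lt l
    rcases Nat.lt_succ_iff_lt_or_eq.1 h0 with c | rfl
    · have k := (h.kept_iff c).1 l
      rw [h.desc_succ k] at d
      have h1 := h.st_old (s := s) (x := γ) (by omega) (by omega)
      have h2 := mt (fun a => h.desc_act (γ := γ) a k) d
      rw [h.cAS s γ (by omega), if_neg (by omega)]
      exact ih (by omega) (h.kept (by omega)).2.1 d
    · exact h.cA_succ hδ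

theorem S4 {s γ δ : ℕ} (e : R.st s γ = 4) (hδ : γ < δ) (l : R.st s δ ≠ 0) : R.cA s γ ≤ δ := by
  induction s with
  | zero => exact absurd (h.live_lt l) (by omega)
  | succ s ih =>
    have h0 := h.live_lt l
    rcases Nat.lt_succ_iff_lt_or_eq.1 h0 with c | rfl
    · have k := (h.kept_iff c).1 l
      have h1 := h.st_old (s := s) (x := γ) (by omega) (by omega)
      have h2 := @at_sp R h s γ
      have h3 := @kept R h s δ (by omega)
      rw [h.cAS s γ (by omega), if_neg (by omega)]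
      exact ih (by omega) h3.2.1
    · exact h.cA_succ hδ

theorem w_sp {s γ : ℕ} (e : R.st s γ = 2) (e6 : R.ev s γ = 6) (e5 : R.ev s (R.sp s) = 5) :
    R.cA s γ ≤ R.sp s := by
  have h1 := h.lt_sp (Or.inr (Or.inr e6))
  have h2 := h.evB s _ (Or.inr e5)
  refine h.W4 e h1 (by omega) fun d => ?_
  have := h.desc_exp h1 (by omega) h2.2.1 d
  omega

theorem rel_sp {s γ : ℕ} (e : R.ev s γ = 2) : R.ev s (R.sp s) ≠ 5 := by
  have := h.rel_frz e (h.lt_sp (Or.inl e))
  omega

theorem W1 {s γ y : ℕ} (e : R.st s γ = 2) (hy : y < R.cA s γ) (w : R.wit s γ y = true) :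
    R.a s y = true := by
  unfold Data.wit at w
  split_ifs at w with c
  swap
  · exact w
  induction s with
  | zero => exact absurd (h.live_lt (s := 0) (x := γ) (by omega)) (by omega)
  | succ s ih =>
    rcases Nat.lt_succ_iff_lt_or_eq.1 (h.live_lt (s := s + 1) (x := γ) (by omega)) with c' | rfl
    · have h1 := h.st_old c' (by omega)
      rw [h.cAS s γ c'] at hy
      by_cases e2 : R.ev s γ = 2
      · rw [if_pos (Or.inl e2)] at hy
        rw [h.wA2 s γ c' e2 y hy] at w
        exact h.grow w fun a => h.rel_sp e2 a.1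
      · rw [if_neg (by omega)] at hy
        rw [h.wAS s γ c' e2] at w
        refine h.grow (ih (by omega) hy w) fun a => ?_
        have := h.w_sp (γ := γ) (by omega) (by omega) a.1
        omega
    · rw [(h.new γ).2.1] at hy
      omega

theorem a_cut {s x : ℕ} (hx : x < R.cut s) : R.u (s + 1) x = R.u s x ∧ R.a (s + 1) x =
    if R.ev s (R.sp s) = 5 then R.wit s (R.sp s) x else R.a s x := by
  have := h.cut_cases s
  rw [h.aS s x (by omega), h.uS s x (by omega), if_pos hx, if_neg (by omega), Data.wit]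
  refine ⟨rfl, ?_⟩
  split_ifs <;> tauto

theorem a_succ {s x : ℕ} (w : R.a (s + 1) x = true) :
    R.a s x = true ∨ (R.u s x = 0 ∧ R.u (s + 1) x = s ∧ x < s) := by
  rcases lt_trichotomy x s with c | rfl | c
  · by_cases c1 : x < R.cut s
    · rw [(h.a_cut c1).2] at w
      split_ifs at w with c2
      · have := h.cut_cases s
        have h1 := h.evB s _ (Or.inr c2)
        have h3 := h.kept (s := s) (x := R.sp s) (by omega)
        have h2 : x < R.cA s (R.sp s) := by omega
        exact Or.inl (h.W1 h1.1 h2 w)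
      · exact Or.inl w
    · rw [h.aS s x c, if_neg c1] at w
      rw [h.uS s x c]
      split_ifs at w ⊢ <;> first | omega | tauto
  · simp [(h.new x).2.2.1] at w
  · simp [(h.out _ x c).2.2.1] at w

theorem a_u {s x : ℕ} (w : R.a s x = true) : R.u s x ≠ 0 := by
  induction s with
  | zero => simp [(h.out 0 x (by omega)).2.2.1] at w
  | succ s ih =>
    rcases h.a_succ w with c | c
    · rw [h.u_fix (ih c)]; exact ih c
    · omega

theorem live_lev {s x : ℕ} (l : R.st s x ≠ 0) : lev (R.a s) (R.u s) x := by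
  obtain ⟨a1, -, a3⟩ := h.live_u l
  refine ⟨?_, fun y hy _ => a3 y hy.le⟩
  cases e : R.a s x
  · rfl
  · exact absurd a1 (h.a_u e)

theorem enum {s f : ℕ} (h1 : R.cut s ≤ f) (h2 : f < s) (h3 : R.u s f = 0) :
    R.a (s + 1) f = true ∧ R.u (s + 1) f = s := by
  rw [h.aS s f h2, h.uS s f h2, if_neg (by omega), if_pos h3, if_pos ⟨h1, h3⟩]
  exact ⟨rfl, rfl⟩

theorem tail_succ {s c : ℕ} (t : R.Tail s c) (H : R.ev s (R.sp s) = 5 → c ≤ R.sp s) :
    R.Tail (s + 1) c := by
  obtain ⟨f, f1, f2, f3, f4⟩ := t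
  have k : ∀ x, c ≤ x → x < f → ∃ y, c ≤ y ∧ y ≤ x ∧ R.a (s + 1) y = true ∧ x < R.u (s + 1) y := by
    intro x a b
    obtain ⟨y, y1, y2, y3, y4⟩ := f4 x a b
    refine ⟨y, y1, y2, h.grow y3 fun ⟨e, g1, g2⟩ => ?_, by rwa [h.u_fix (by omega)]⟩
    obtain ⟨z, z1, z2, z3, z4⟩ := f4 (R.sp s) (H e) (by omega)
    have := (h.live_u (h.kept (s := s) (x := R.sp s) (by omega)).2.1).2.2 z z2
    omega
  by_cases c0 : R.u (s + 1) f = 0
  · exact ⟨f, f1, by omega, c0, k⟩
  · have f5 : f < s := by have := h.u_bd c0; omega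
    have f6 : R.cut s ≤ f := by
      rw [h.uS s f f5] at c0
      split_ifs at c0 <;> omega
    refine ⟨s, by omega, by omega, (h.new s).2.2.2.1, fun x a b => ?_⟩
    by_cases c1 : x < f
    · exact k x a c1
    · have := h.enum f6 f5 f3
      exact ⟨f, f1, by omega, this.1, by omega⟩

theorem tail_self {s c : ℕ} (h1 : c ≤ s) (h2 : c = s ∨ R.st s c ≠ 0) : R.Tail s c := by
  refine ⟨c, le_rfl, h1, ?_, fun x a b => by omega⟩
  rcases h2 with rfl | h2
  · exact (h.out c c le_rfl).2.1
  · exact (h.live_u h2).1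

theorem tail_w {s γ : ℕ} (e : R.st s γ = 2) : R.Tail s (R.cA s γ) := by
  induction s with
  | zero => exact absurd (h.live_lt (s := 0) (x := γ) (by omega)) (by omega)
  | succ s ih =>
    rcases Nat.lt_succ_iff_lt_or_eq.1 (h.live_lt (s := s + 1) (x := γ) (by omega)) with c' | rfl
    · have h1 := h.st_old c' (by omega)
      rw [h.cAS s γ c']
      split_ifs with c
      · have := (h.evA s γ c).2.2.1
        exact h.tail_succ (h.tail_self this.1 this.2.2.1) fun a =>
          absurd a (h.rel_sp (γ := γ) (by omega))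
      · exact h.tail_succ (ih (by omega)) (h.w_sp (by omega) (by omega))
    · rw [(h.new γ).2.1]
      exact h.tail_self le_rfl (Or.inl rfl)

theorem tail_cut (s : ℕ) : R.Tail s (R.cut s) := by
  rcases h.cut_cases s with ⟨-, a⟩ | ⟨a, ⟨b, c⟩ | ⟨-, -, ⟨b, c⟩ | ⟨b, c⟩⟩⟩
  · exact h.tail_self a.le (Or.inl a)
  · rw [c]; exact h.tail_self a.le (Or.inr (h.kept (by omega)).2.1)
  · have := (h.evA s _ (Or.inr b)).2.2.1
    rw [c]; exact h.tail_self this.1 this.2.2.1
  · rw [c]; exact h.tail_w (h.evB s _ (Or.inr b)).1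

theorem no_lev {s x : ℕ} (h1 : R.cut s ≤ x) (h2 : x < s) : ¬lev (R.a (s + 1)) (R.u (s + 1)) x := by
  obtain ⟨f, f1, f2, f3, f4⟩ := h.tail_cut s
  have : ∃ y ≤ x, R.a (s + 1) y = true ∧ x < R.u (s + 1) y := by
    by_cases c1 : x < f
    · obtain ⟨y, y1, y2, y3, y4⟩ := f4 x h1 c1
      exact ⟨y, y2, h.grow y3 (by omega), by rwa [h.u_fix (by omega)]⟩
    · have := h.enum f1 (by omega) f3
      exact ⟨f, by omega, this.1, by omega⟩
  obtain ⟨y, y1, y2, y3⟩ := this
  rintro ⟨l1, l2⟩
  rcases y1.lt_or_eq with c | rfl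
  · have := l2 y c y2
    omega
  · simp [l1] at y2

omit h in
theorem lev_congr {a a' : ℕ → Bool} {u u' : ℕ → ℕ} {x : ℕ} (l : lev a' u' x)
    (e : ∀ y ≤ x, a' y = a y ∧ (a y = true → u' y = u y)) : lev a u x :=
  ⟨(e x le_rfl).1 ▸ l.1, fun y hy c => (e y hy.le).2 c ▸ l.2 y hy ((e y hy.le).1.trans c)⟩

theorem LA {s x : ℕ} (hx : x < s) (l : lev (R.a s) (R.u s) x) :
    R.st s x ≠ 0 ∨ ∃ γ < x, R.st s γ = 4 ∧ x < R.cA s γ := by
  induction s, hx using Nat.le_induction with
  | base => exact Or.inl (by have := h.new_live x; change R.st (x + 1) x ≠ 0; omega)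
  | succ s hx ih =>
    have h1 : x < R.cut s := by_contra fun c => h.no_lev (not_lt.1 c) hx l
    have h2 := h.cut_cases s
    rcases lt_trichotomy x (R.sp s) with c | c | c
    · rcases ih (lev_congr l fun y hy => ⟨(h.keep_sp (by omega)).1, fun _ =>
        (h.keep_sp (by omega)).2⟩) with a | ⟨γ, a1, a2, a3⟩
      · have := h.below c a
        exact Or.inl ((h.kept_iff hx).2 (by omega))
      · have h3 := h.below (s := s) (x := γ) (by omega) (by omega)
        have h4 := h.st_old (s := s) (x := γ) (by omega) ((h.kept_iff (by omega)).2 (by omega))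
        exact Or.inr ⟨γ, a1, by omega, by rwa [h.cAS s γ (by omega), if_neg (by omega)]⟩
    · exact Or.inl ((h.kept_iff hx).2 (by rw [c]; omega))
    · have h4 := h.st_old (s := s) (x := R.sp s) (by omega) ((h.kept_iff (by omega)).2 (by omega))
      refine Or.inr ⟨R.sp s, c, by omega, ?_⟩
      rw [h.cAS s _ (by omega)]
      split_ifs <;> omega

theorem WI {s γ : ℕ} (e : R.st s γ = 2) :
    Bel R.lab γ (R.cA s γ) (lev (R.wit s γ) (R.u s)) (R.idx γ) ∧ ∀ z < (R.dl s γ).length,
      Cmp (R.idx γ).unpair.1 (R.wit s γ) (R.cA s γ) z ((R.dl s γ).getD z 0) := by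
  induction s with
  | zero => exact absurd (h.live_lt (s := 0) (x := γ) (by omega)) (by omega)
  | succ s ih =>
    rcases Nat.lt_succ_iff_lt_or_eq.1 (h.live_lt (s := s + 1) (x := γ) (by omega)) with c' | rfl
    · have h1 := h.st_old c' (by omega)
      have h2 := fun y => h.keep_kept (s := s) (x := y) (δ := γ) (by omega)
      rw [h.cAS s γ c', h.dlS s γ c', if_neg (c := _ = 4) (by omega)]
      by_cases e2 : R.ev s γ = 2
      · obtain ⟨-, -, a1, a2⟩ := h.evA s γ (Or.inl e2)
        have h3 : ∀ y < R.fA s γ, R.wit (s + 1) γ y = R.a s y := fun y hy => by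
          unfold Data.wit
          split_ifs with c
          · exact h.wA2 s γ c' e2 y hy
          · exact (h2 y (by omega)).1
        rw [if_pos (Or.inl e2)]
        exact ⟨a1.2.2.2.1.mono fun x _ b l => lev_congr l fun y hy =>
          ⟨h3 y (by omega), fun c => h.u_fix (h.a_u c)⟩,
          fun z hz => (Cmp.of_V (a2.1 e2 z hz)).congr h3⟩
      · obtain ⟨a1, a2⟩ := ih (by omega)
        have h3 : ∀ y, R.wit (s + 1) γ y = R.wit s γ y := fun y => by
          unfold Data.wit
          split_ifs with c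
          · rw [h.wAS s γ c' e2]
          · exact (h2 y (by omega)).1
        rw [if_neg (by omega)]
        exact ⟨a1.mono fun x _ b l => lev_congr l fun y hy =>
          ⟨h3 y, fun c => h.u_fix (h.a_u (h.W1 (by omega) (by omega) c))⟩,
          fun z hz => (a2 z hz).congr fun y _ => h3 y⟩
    · rw [(h.new γ).2.1, (h.new γ).1]
      exact ⟨Bel.empty, by simp⟩

theorem hold_lt {s γ : ℕ} (e : 3 ≤ R.st (s + 1) γ) : γ < s := by
  have := h.live_lt (s := s + 1) (x := γ) (by omega)
  have := h.new_live s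
  by_contra hn
  obtain rfl : γ = s := by omega
  omega

theorem b_frz {s γ x : ℕ} (e : 3 ≤ R.st (s + 1) γ) (h1 : x < R.cB (s + 1) γ) (h2 : x < s) :
    R.b (s + 1) x = R.b s x := by
  rw [Bool.eq_iff_iff, h.bS s x h2]
  refine or_iff_left fun a => ?_
  have := a.2 γ (h.hold_lt e) e
  omega

theorem HB {s γ : ℕ} (e : 3 ≤ R.st s γ) : R.cB s γ < s ∧
    Bel R.lab γ (R.cB s γ) (fun x => R.b s x = false) (Nat.pair (R.idx γ) (R.k γ)) ∧
    (R.st s γ = 3 → ∀ z < (R.dl s γ).length,
      Cmp (R.idx γ).unpair.2 (R.b s) (R.cB s γ) z ((R.dl s γ).getD z 0)) := by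
  induction s with
  | zero => exact absurd (h.live_lt (s := 0) (x := γ) (by omega)) (by omega)
  | succ s ih =>
    have c' := h.hold_lt e
    have h1 := h.st_old c' (by omega)
    have h2 := fun x => h.b_frz (x := x) e
    rw [h.cBS s γ c'] at h2 ⊢
    rw [h.dlS s γ c']
    by_cases c : R.ev s γ = 4 ∨ R.ev s γ = 5
    · rw [if_pos c] at h2 ⊢
      obtain ⟨-, -, -, ⟨a1, -, a2, a3⟩, a4⟩ := h.evB s γ c
      refine ⟨by omega, a2.mono fun x _ b l => (h2 x b (by omega)).symm.trans l, fun e3 z hz => ?_⟩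
      rw [if_pos (by omega)] at hz ⊢
      refine Cmp.congr (Cmp.of_V (s := s) ?_) fun x b => h2 x b (by omega)
      rw [List.length_append, List.length_singleton] at hz
      rcases Nat.lt_succ_iff_lt_or_eq.1 hz with c1 | rfl
      · rw [List.getD_append _ _ _ _ c1]
        exact a4.1 (by omega) z c1
      · obtain ⟨y, hy⟩ := Option.isSome_iff_exists.1 (a3 _ hz)
        simp [hy]
    · rw [if_neg c] at h2 ⊢
      rw [if_neg (by omega)]
      obtain ⟨a1, a2, a3⟩ := ih (by omega)
      exact ⟨by omega, a2.mono fun x _ b l => (h2 x b (by omega)).symm.trans l, fun e3 z hz =>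
        (a3 (by omega) z hz).congr fun x b => h2 x b (by omega)⟩

theorem a_frz {s γ x : ℕ} (e : R.st s γ = 4) (e6 : R.ev s γ = 6) (hx : x < R.cA s γ) :
    R.a (s + 1) x = R.a s x ∧ R.u (s + 1) x = R.u s x := by
  have h1 := h.lt_sp (Or.inr (Or.inr e6))
  refine h.keep_sp (hx.trans_le ?_)
  rcases h.sp_live s with c | c
  · rw [c]; exact (h.cA_bd (by omega)).2
  · exact h.S4 e h1 c

theorem SI {s γ : ℕ} (e : R.st s γ = 4) :
    Bel R.lab γ (R.cA s γ) (lev (R.a s) (R.u s)) (R.idx γ) ∧ ∃ z y y', y ≠ y' ∧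
      Cmp (R.idx γ).unpair.1 (R.a s) (R.cA s γ) z y ∧
      Cmp (R.idx γ).unpair.2 (R.b s) (R.cB s γ) z y' := by
  induction s with
  | zero => exact absurd (h.live_lt (s := 0) (x := γ) (by omega)) (by omega)
  | succ s ih =>
    have c' := h.hold_lt (s := s) (γ := γ) (by omega)
    have h1 := h.st_old c' (by omega)
    have h0 := (h.HB (s := s + 1) (γ := γ) (by omega)).1
    have h2 := fun x a => h.b_frz (s := s) (γ := γ) (x := x) (by omega) a (by omega)
    have h3 := h.cut_cases s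
    have h4 := fun x => h.a_cut (s := s) (x := x)
    have h6 := h.cBS s γ c'
    have h7 := h.cAS s γ c'
    rcases h1 with h1 | h1 | h1 | h1 | h1
    · omega
    · have h8 := h.at_sp (Or.inr (Or.inl h1.1))
      obtain ⟨-, -, ⟨-, -, -, a1, a2⟩, a3⟩ := h.evA s _ (Or.inr h1.1)
      rw [if_neg (by omega)] at h6
      rw [if_pos (by omega)] at h7
      rw [h8] at h3 h4
      have h9 : R.cut s = R.fA s γ := by omega
      simp only [h1.1, h9] at h4
      rw [h6] at h2 ⊢
      rw [h7]
      refine ⟨a1.mono fun x _ b l => lev_congr l fun y hy =>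
        ⟨(h4 y (hy.trans_lt b)).2, fun _ => (h4 y (hy.trans_lt b)).1⟩, ?_⟩
      have a4 : ¬R.agA s γ := fun a => by have := a3.2 a; omega
      simp only [Data.agA, not_forall] at a4
      obtain ⟨z, z1, z2⟩ := a4
      obtain ⟨y, hy⟩ := Option.isSome_iff_exists.1 (a2 z z1)
      exact ⟨z, y, (R.dl s γ).getD z 0, fun a => z2 (a ▸ hy), (Cmp.of_V hy).congr fun x b => (h4 x b).2,
        ((h.HB h1.2.1.ge).2.2 h1.2.1 z z1).congr h2⟩
    · omega
    · have h8 := h.at_sp (Or.inr (Or.inr h1.1))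
      obtain ⟨-, -, -, ⟨-, -, -, a2⟩, a3⟩ := h.evB s _ (Or.inr h1.1)
      obtain ⟨b1, b2⟩ := h.WI h1.2.1
      rw [if_pos (by omega)] at h6
      rw [if_neg (by omega)] at h7
      rw [h8] at h3 h4
      have h9 : R.cut s = R.cA s γ := by omega
      simp only [h1.1, h9] at h4
      rw [h6] at h2 ⊢
      rw [h7]
      refine ⟨b1.mono fun x _ b l => lev_congr l fun y hy =>
        ⟨(h4 y (hy.trans_lt b)).2, fun _ => (h4 y (hy.trans_lt b)).1⟩, ?_⟩
      have a4 : ¬R.agB s γ := fun a => by have := a3.2 a; omega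
      simp only [Data.agB, not_forall] at a4
      obtain ⟨z, z1, z2⟩ := a4
      obtain ⟨y, hy⟩ := Option.isSome_iff_exists.1 (a2 z (Nat.lt_succ_of_lt z1))
      exact ⟨z, (R.dl s γ).getD z 0, y, fun a => z2 (a ▸ hy), (b2 z z1).congr fun x b => (h4 x b).2,
        (Cmp.of_V hy).congr h2⟩
    · have h5 := fun x => h.a_frz (s := s) (γ := γ) (x := x) (by omega) h1.1
      obtain ⟨a1, z, y, y', a2, a3, a4⟩ := ih (by omega)
      rw [if_neg (by omega)] at h6 h7
      rw [h6] at h2 ⊢
      rw [h7]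
      exact ⟨a1.mono fun x _ b l => lev_congr l fun y hy =>
        ⟨(h5 y (hy.trans_lt b)).1, fun _ => (h5 y (hy.trans_lt b)).2⟩, z, y, y', a2,
        a3.congr fun x b => (h5 x b).1, a4.congr h2⟩

theorem OB {s x : ℕ} (hx : x < s) (d : R.st s x = 0) (b : R.b s x = false) :
    ∃ γ < x, 3 ≤ R.st s γ ∧ x < R.cB s γ ∧ ∀ δ, x < δ → 3 ≤ R.st s δ → ¬R.Desc s γ δ := by
  induction s, hx using Nat.le_induction with
  | base => have := h.new_live x; change R.st (x + 1) x = 0 at d; omega
  | succ s hx ih =>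
    have h1 := (h.bS s x hx).not.1 (by simp [b])
    simp only [not_or, Bool.not_eq_true, d, true_and, not_forall, not_le] at h1
    obtain ⟨h1, γ0, g1, g2, g3⟩ := h1
    have vac : (∀ δ, x < δ → ¬3 ≤ R.st (s + 1) δ) → ∃ γ < x, 3 ≤ R.st (s + 1) γ ∧
        x < R.cB (s + 1) γ ∧ ∀ δ, x < δ → 3 ≤ R.st (s + 1) δ → ¬R.Desc (s + 1) γ δ := fun H => by
      refine ⟨γ0, ?_, g2, g3, fun δ a b => absurd b (H δ a)⟩
      rcases lt_trichotomy γ0 x with c | rfl | c
      · exact c
      · omega
      · exact absurd g2 (H _ c)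
    have kp : ∀ δ, 3 ≤ R.st (s + 1) δ → 2 ≤ R.ev s δ ∧ δ ≤ R.sp s := fun δ a => by
      have := (h.kept_iff (h.hold_lt a)).1 (by omega)
      exact ⟨this, (h.kept (by omega)).1⟩
    by_cases c : R.st s x = 0
    · obtain ⟨γ, a1, a2, a3, a4⟩ := ih c h1
      by_cases c1 : γ < R.sp s
      · have h2 := h.below c1 (by omega)
        have h3 : R.ev s γ ≠ 4 := fun a => by have := (h.evB s γ (Or.inl a)).1; omega
        by_cases c2 : R.ev s γ = 2
        · refine vac fun δ b1 b2 => ?_
          have h4 := h.rel_frz c2 (a1.trans b1)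
          have h5 := h.st_old (h.hold_lt b2) (by omega)
          exact a4 δ b1 (by omega) (h.desc_act (Or.inl c2) (kp δ b2).1)
        · have h4 := h.st_old (s := s) (x := γ) (by omega) ((h.kept_iff (by omega)).2 (by omega))
          refine ⟨γ, a1, by omega, by rwa [h.cBS s γ (by omega), if_neg (by omega)],
            fun δ b1 b2 b3 => ?_⟩
          rw [h.desc_succ (kp δ b2).1] at b3
          have h5 := h.st_old (h.hold_lt b2) (by omega)
          by_cases c3 : 3 ≤ R.st s δ
          · exact a4 δ b1 c3 b3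
          · exact h3 (h.desc_exp (a1.trans b1) (by omega) (h.evB s δ (by omega)).2.1 b3)
      · exact vac fun δ b1 b2 => by have := kp δ b2; omega
    · refine vac fun δ b1 b2 => ?_
      have h2 := kp δ b2
      have h3 := h.below (s := s) (x := x) (by omega) c
      exact (h.kept_iff hx).2 (by omega) d

theorem KK {s γ δ : ℕ} (hδ : γ < δ) (i : R.idx γ = R.idx δ) (a : 2 ≤ R.st s γ) (b : 2 ≤ R.st s δ) :
    R.st s γ ≠ 4 ∧ (R.st s γ = 3 ∨ R.Desc s γ δ → γ < R.k δ) := by
  induction s with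
  | zero => exact absurd (h.live_lt (s := 0) (x := γ) (by omega)) (by omega)
  | succ s ih =>
    rcases Nat.lt_succ_iff_lt_or_eq.1 (h.live_lt (s := s + 1) (x := δ) (by omega)) with c | rfl
    · have h1 := h.st_old c (by omega)
      have h2 := h.st_old (hδ.trans c) (by omega)
      have h3 := h.kept (s := s) (x := δ) (by omega)
      have h4 := h.below (s := s) (x := γ) (by omega) (by omega)
      obtain ⟨a1, a2⟩ := ih (by omega) (by omega)
      rw [h.desc_succ (by omega)]
      refine ⟨by omega, fun H => a2 ?_⟩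
      by_cases c1 : R.ev s γ = 6
      · exact H.imp_left (by omega)
      · exact Or.inr (h.desc_act (by omega) (by omega))
    · have h1 := (h.stN δ).resolve_left (by omega)
      refine ⟨fun e => h1.2 γ hδ e i, fun H => (h.kN δ).1 γ hδ ?_ i⟩
      rcases H with H | H
      · exact H
      · have h2 := h.desc_new hδ H
        have h3 := h.st_old hδ (by omega)
        omega

theorem KU {s δ : ℕ} (b : R.st s δ ≠ 0) : R.k δ = 0 ∨ ∃ γ < δ, R.k δ = γ + 1 ∧ R.idx γ = R.idx δ ∧
    R.st s γ ≠ 0 ∧ (R.st s γ = 3 ∨ R.Desc s γ δ) := by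
  induction s with
  | zero => exact absurd (h.live_lt b) (by omega)
  | succ s ih =>
    rcases Nat.lt_succ_iff_lt_or_eq.1 (h.live_lt b) with c | rfl
    · have h1 := (h.kept_iff c).1 b
      have h3 := h.kept (s := s) (x := δ) (by omega)
      refine (ih h3.2.1).imp_right fun ⟨γ, a1, a2, a3, a4, a5⟩ => ?_
      have h4 := h.below (s := s) (x := γ) (by omega) a4
      have h5 := (h.kept_iff (a1.trans c)).2 (by omega)
      have h2 := h.st_old (a1.trans c) h5
      refine ⟨γ, a1, a2, a3, h5, ?_⟩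
      rw [h.desc_succ h1]
      by_cases c1 : R.ev s γ = 6
      · exact a5.imp_left (by omega)
      · exact Or.inr (h.desc_act (by omega) h1)
    · exact (h.kN δ).2.imp_right fun ⟨γ, a1, a2, a3, a4⟩ =>
        ⟨γ, a1, a4, a3, by omega, Or.inl a2⟩

theorem idle {s δ : ℕ} (b : R.st s δ = 1) : ∃ γ < δ, R.st s γ = 4 ∧ R.idx γ = R.idx δ := by
  induction s with
  | zero => exact absurd (h.live_lt (s := 0) (x := δ) (by omega)) (by omega)
  | succ s ih =>
    rcases Nat.lt_succ_iff_lt_or_eq.1 (h.live_lt (s := s + 1) (x := δ) (by omega)) with c | rfl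
    · have h1 := h.st_old c (by omega)
      have h3 := h.kept (s := s) (x := δ) (by omega)
      obtain ⟨γ, a1, a2, a3⟩ := ih (by omega)
      have h4 := h.below (s := s) (x := γ) (by omega) (by omega)
      have h2 := h.st_old (a1.trans c) ((h.kept_iff (a1.trans c)).2 (by omega))
      exact ⟨γ, a1, by omega, a3⟩
    · exact ((h.stN δ).resolve_right (by omega)).2

theorem k_le (δ : ℕ) : R.k δ ≤ δ := by
  rcases (h.kN δ).2 with a | ⟨γ, a, -, -, b⟩ <;> omega

theorem lab_le (δ : ℕ) : R.lab δ ≤ δ := h.labN δ ▸ (h.acc_le δ δ).2.2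

theorem par_le (δ : ℕ) : R.par δ ≤ δ := by
  have := h.acc_le δ δ
  rw [h.parN]; omega

end Spec

end Pool.Agent.P.MP_471da3_lc.D
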