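import Pool.Agent.P.MP_471da3_lc.D.Path

/-!
The limit sets and their domination property.
-/

namespace Pool.Agent.P.MP_471da3_lc.D

open Pool.Agent.Lib.Comp Filter MeasureTheory
open scoped ENNReal

theorem re_ex {p : ℕ → ℕ → Bool} (hp : Primrec fun q : ℕ × ℕ => p q.1 q.2) :
    REPred fun x => ∃ s, p s x = true := by
  have h1 : Primrec fun q : ℕ × ℕ => cond (p q.2 q.1) (some 0) (none : Option ℕ) := by fun_prop
  refine (Partrec.rfindOpt (f := fun x s => cond (p s x) (some 0) (none : Option ℕ))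
    h1.to_comp).dom_re.of_eq fun x => ?_
  rw [Nat.rfindOpt_dom]
  refine exists_congr fun s => ?_
  cases p s x <;> simp

open Classical in
noncomputable def Data.A (R : Data) (x : ℕ) : Bool := decide (∀ᶠ s in atTop, R.a s x = true)

open Classical in
noncomputable def Data.B (R : Data) (x : ℕ) : Bool := decide (∃ s, R.b s x = true)

def Data.LvA (R : Data) : Set ℕ := {x | ∀ᶠ s in atTop, lev (R.a s) (R.u s) x}

namespace Spec
variable {R : Data} (h : Spec R)
include h

theorem u_fix' {s t x : ℕ} (hu : R.u s x ≠ 0) (ht : s ≤ t) : R.u t x = R.u s x := by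
  induction t, ht using Nat.le_induction with
  | base => rfl
  | succ t ht ih => rw [h.u_fix (ih ▸ hu), ih]

theorem gone {s t x : ℕ} (a : R.a s x = false) (hu : R.u s x ≠ 0) (ht : s ≤ t) :
    R.a t x = false := by
  induction t, ht using Nat.le_induction with
  | base => exact a
  | succ t ht ih =>
    have := h.u_fix' hu ht
    cases e : R.a (t + 1) x
    · rfl
    · rcases h.a_succ e with c | c
      · simp [ih] at c
      · omega

theorem A_iff (x : ℕ) : R.A x = true ↔
    (∃ s, R.a s x = true) ∧ ¬∃ s, (!R.a s x && !eqb (R.u s x) 0) = true := by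
  simp only [Data.A, decide_eq_true_eq, Bool.and_eq_true, Bool.not_eq_true', eqb_false]
  refine ⟨fun a => ⟨a.exists, fun ⟨s, b, c⟩ => ?_⟩, fun ⟨⟨s, a⟩, b⟩ => ?_⟩
  · obtain ⟨t, d, e⟩ := (a.and (eventually_ge_atTop s)).exists
    simp [h.gone b c e] at d
  · filter_upwards [eventually_ge_atTop s] with t ht
    by_contra c
    exact b ⟨t, by simpa using c, by rw [h.u_fix' (h.a_u a) ht]; exact h.a_u a⟩

theorem A_lim (x : ℕ) : ∀ᶠ s in atTop, R.a s x = R.A x := by
  cases e : R.A x
  · have := (h.A_iff x).not.1 (by simp [e])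
    simp only [Bool.and_eq_true, Bool.not_eq_true', eqb_false, not_and, not_not] at this
    by_cases c : ∃ s, R.a s x = true
    · obtain ⟨s, a, b⟩ := this c
      exact eventually_atTop.2 ⟨s, fun t ht => h.gone a b ht⟩
    · exact Eventually.of_forall fun s => by simpa using not_exists.1 c s
  · simpa [Data.A] using e

theorem B_lim (x : ℕ) : ∀ᶠ s in atTop, R.b s x = R.B x := by
  cases e : R.B x
  · exact Eventually.of_forall fun s => by
      simp only [Data.B, decide_eq_false_iff_not, not_exists, Bool.not_eq_true] at e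
      exact e s
  · simp only [Data.B, decide_eq_true_eq] at e
    obtain ⟨s, a⟩ := e
    refine eventually_atTop.2 ⟨s, fun t ht => ?_⟩
    induction t, ht using Nat.le_induction with
    | base => exact a
    | succ t ht ih =>
      refine (h.bS t x (by_contra fun c => ?_)).2 (Or.inl ih)
      simp [(h.out t x (not_lt.1 c)).2.2.2] at ih

theorem loc {s x : ℕ} (e : ∀ y ≤ x, R.a s y = R.A y) : lev (R.a s) (R.u s) x ↔ x ∈ R.LvA := by
  have k : ∀ᶠ t in atTop, (lev (R.a s) (R.u s) x ↔ lev (R.a t) (R.u t) x) := by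
    filter_upwards [ev_res h.A_lim (x + 1), eventually_ge_atTop s] with t h1 h2
    have h3 : ∀ y ≤ x, R.a t y = R.a s y := fun y hy => (h1 y (by omega)).trans (e y hy).symm
    exact ⟨fun l => lev_congr l fun y hy => ⟨(h3 y hy).symm, fun c =>
      (h.u_fix' (h.a_u ((h3 y hy).symm.trans c)) h2).symm⟩,
      fun l => lev_congr l fun y hy => ⟨h3 y hy, fun c => h.u_fix' (h.a_u c) h2⟩⟩
  refine ⟨fun l => k.mono fun t a => a.1 l, fun l => ?_⟩
  obtain ⟨t, a, b⟩ := (k.and l).exists
  exact a.2 b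

theorem ev_perm (n : ℕ) : ∀ᶠ s in atTop, ∀ x < n, R.st s x ≠ 0 → R.Perm x :=
  (eventually_all_finite (Set.finite_Iio n)).2 fun x _ => (h.perm_or x).elim
    (fun p => Eventually.of_forall fun _ _ => p) fun d => d.mono fun _ a b => absurd a b

theorem smallA : Small R.lab R.LvA := by
  classical
  choose! c hc using fun γ (hγ : γ ∈ {γ | ∃ c, ∀ᶠ s in atTop, R.st s γ = 4 ∧ R.cA s γ = c}) => hγ
  refine small_of (H := {γ | ∃ c, ∀ᶠ s in atTop, R.st s γ = 4 ∧ R.cA s γ = c}) (j := R.idx) (c := c)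
    (fun γ hγ => ?_) h.lab_inj (fun γ hγ δ hδ e => ?_) (fun p => h.perm_good) (fun γ hγ => ?_)
    fun x hx => ?_
  · obtain ⟨s, hs⟩ := eventually_atTop.1 (hc γ hγ)
    exact h.perm_of fun t ht => by have := hs t ht; omega
  · obtain ⟨s, a, b⟩ := ((hc γ hγ).and (hc δ hδ)).exists
    rcases lt_trichotomy γ δ with d | d | d
    · exact absurd a.1 (h.KK d e (by omega) (by omega)).1
    · exact d
    · exact absurd b.1 (h.KK d e.symm (by omega) (by omega)).1
  · obtain ⟨s, a, b⟩ := ((hc γ hγ).and (ev_res h.A_lim (c γ))).exists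
    have := (h.SI a.1).1
    rw [a.2] at this
    exact this.mono fun x _ d l => (h.loc fun y hy => b y (by omega)).2 l
  · refine (h.perm_or x).imp_right fun d => ?_
    obtain ⟨s, ⟨a1, a2⟩, a3, a4⟩ :=
      ((d.and hx).and ((h.ev_perm x).and (eventually_gt_atTop x))).exists
    obtain ⟨γ, b1, b2, b3⟩ := (h.LA a4 a2).resolve_left (by omega)
    have p := a3 γ b1 (by omega)
    have k : ∀ᶠ t in atTop, R.st t γ = 4 ∧ R.cA t γ = R.cA s γ := eventually_atTop.2 ⟨s, fun t ht =>
      ⟨(h.four p b2 ht).1, (h.const (by omega) (fun t ht => (h.four p b2 ht).2) ht).2.1⟩⟩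
    obtain ⟨t, d1, d2⟩ := (k.and (hc γ ⟨_, k⟩)).exists
    exact ⟨γ, ⟨_, k⟩, b1, by omega⟩

theorem desc_ev {γ δ t : ℕ} (p : R.Perm δ) (ht : δ < t) (d : R.Desc t γ δ) :
    ∀ᶠ s in atTop, R.Desc s γ δ := by
  refine eventually_atTop.2 ⟨t, fun s hs => ?_⟩
  induction s, hs using Nat.le_induction with
  | base => exact d
  | succ s hs ih => exact (h.desc_succ (h.perm_ev p (by omega))).2 ih

theorem sync (x : ℕ) :
    ∃ᶠ s in atTop, ∀ γ < x, (∃ᶠ t in atTop, R.ev t γ = 4) → R.ev s γ = 4 := by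
  induction x with
  | zero => exact Frequently.of_forall (by simp)
  | succ x ih =>
    by_cases c : ∃ᶠ t in atTop, R.ev t x = 4
    · have p : R.Perm x := (h.perm_or x).resolve_right fun d => by
        obtain ⟨s, a, b⟩ := (c.and_eventually d).exists
        have := (h.evB s x (Or.inl a)).1
        omega
      have k : ∀ᶠ s in atTop, ∀ γ ∈ Set.Iio x, (∃ᶠ t in atTop, R.ev t γ = 4) → R.Desc s γ x := by
        refine (eventually_all_finite (Set.finite_Iio x)).2 fun γ _ => ?_
        by_cases c1 : ∃ᶠ t in atTop, R.ev t γ = 4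
        · obtain ⟨t, a, b⟩ := (c1.and_eventually (eventually_gt_atTop x)).exists
          exact (h.desc_ev p b (h.desc_act (Or.inr a) (h.perm_ev p b))).mono fun s a _ => a
        · exact Eventually.of_forall fun s a => absurd a c1
      refine (c.and_eventually k).mono fun s ⟨a, b⟩ γ hγ d => ?_
      rcases Nat.lt_succ_iff_lt_or_eq.1 hγ with c1 | rfl
      · have := h.evB s x (Or.inl a)
        exact h.desc_exp c1 (by omega) this.2.1 (b γ c1 d)
      · exact a
    · refine ih.mono fun s a γ hγ d => ?_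
      rcases Nat.lt_succ_iff_lt_or_eq.1 hγ with c1 | rfl
      · exact a γ c1 d
      · exact absurd d c

theorem quiet {γ : ℕ} (p : R.Perm γ) (e : ¬∃ᶠ t in atTop, R.ev t γ = 4) : ∃ s, ∀ᶠ t in atTop,
    R.ev t γ = 6 ∧ R.st t γ = R.st s γ ∧ R.cB t γ = R.cB s γ ∧ R.dl t γ = R.dl s γ := by
  obtain ⟨s, hs⟩ := eventually_atTop.1 ((h.settle p (not_frequently.1 e)).and (eventually_gt_atTop γ))
  refine ⟨s, eventually_atTop.2 ⟨s, fun t ht => ?_⟩⟩
  have := h.const (hs s le_rfl).2 (fun t ht => (hs t ht).1) ht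
  exact ⟨(hs t ht).1, this.1, this.2.2⟩

theorem smallB : Small R.lab {x | R.B x = false} := by
  classical
  choose! c hc using fun γ (hγ : γ ∈ {γ | ∃ c, ∀ᶠ s in atTop, 3 ≤ R.st s γ ∧ R.cB s γ = c}) => hγ
  refine small_of (H := {γ | ∃ c, ∀ᶠ s in atTop, 3 ≤ R.st s γ ∧ R.cB s γ = c})
    (j := fun γ => Nat.pair (R.idx γ) (R.k γ)) (c := c)
    (fun γ hγ => ?_) h.lab_inj (fun γ hγ δ hδ e => ?_) (fun p => h.perm_good) (fun γ hγ => ?_)
    fun x hx => ?_
  · obtain ⟨s, hs⟩ := eventually_atTop.1 (hc γ hγ)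
    exact h.perm_of fun t ht => by have := hs t ht; omega
  · obtain ⟨s, a, b⟩ := ((hc γ hγ).and (hc δ hδ)).exists
    obtain ⟨e1, e2⟩ := Nat.pair_eq_pair.1 e
    have := h.k_le γ
    have := h.k_le δ
    have := h.st_le s γ
    have := h.st_le s δ
    rcases lt_trichotomy γ δ with d | d | d
    · obtain ⟨d1, d2⟩ := h.KK (s := s) d e1 (by omega) (by omega)
      have := d2 (Or.inl (by omega))
      omega
    · exact d
    · obtain ⟨d1, d2⟩ := h.KK (s := s) d e1.symm (by omega) (by omega)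
      have := d2 (Or.inl (by omega))
      omega
  · obtain ⟨s, a, b⟩ := ((hc γ hγ).and (ev_res h.B_lim (c γ))).exists
    have := (h.HB a.1).2.1
    rw [a.2] at this
    exact this.mono fun x _ d l => (b x d).trans l
  · refine (h.perm_or x).imp_right fun d => ?_
    have k : ∀ᶠ s in atTop, ∀ γ ∈ Set.Iio x, 3 ≤ R.st s γ → (∃ᶠ t in atTop, R.ev t γ = 4) ∨
        ∀ᶠ t in atTop, 3 ≤ R.st t γ ∧ R.cB t γ = R.cB s γ := by
      refine (eventually_all_finite (Set.finite_Iio x)).2 fun γ _ => ?_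
      rcases h.perm_or γ with p | p
      · by_cases c1 : ∃ᶠ t in atTop, R.ev t γ = 4
        · exact Eventually.of_forall fun s _ => Or.inl c1
        · obtain ⟨s0, hs⟩ := h.quiet p c1
          exact hs.mono fun s a b => Or.inr (hs.mono fun t c => by omega)
      · exact p.mono fun s a b => by omega
    obtain ⟨s, a0, ⟨a1, a2⟩, a3, a4⟩ := ((h.sync x).and_eventually
      ((d.and (h.B_lim x)).and (k.and (eventually_gt_atTop x)))).exists
    obtain ⟨γ, b1, b2, b3, -⟩ := h.OB a4 a1 (a2.trans hx)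
    rcases a3 γ b1 b2 with c1 | k
    · have := (h.evB s γ (Or.inl (a0 γ b1 c1))).1
      omega
    · obtain ⟨t, d1, d2⟩ := (k.and (hc γ ⟨_, k⟩)).exists
      exact ⟨γ, ⟨_, k⟩, b1, by omega⟩

theorem udA : UD R.A := by
  have := h.pa
  have := h.pu
  refine ud_of (ap := R.a) (l := fun s x => levb (R.a s) (R.u s) x) h.smallA h.lab_le
    (fun m => ?_) h.plab h.pa (by fun_prop) h.A_lim fun s x e => levb_iff.trans (h.loc e)
  obtain ⟨x, a, b⟩ := h.perm_lab m
  exact ⟨x, (eventually_gt_atTop x).mono fun s hs => h.live_lev (a s hs), b⟩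

theorem udB : UD R.B := by
  have := h.pb
  refine ud_of (ap := R.b) (l := fun s x => !R.b s x) h.smallB h.lab_le
    (fun m => ?_) h.plab h.pb (by fun_prop) h.B_lim fun s x e => by simp [e x le_rfl]
  obtain ⟨x, a, b⟩ := h.perm_lab m
  obtain ⟨s, c, d⟩ := ((h.B_lim x).and (eventually_gt_atTop x)).exists
  exact ⟨x, c.symm.trans (h.live_u (a s d)).2.1, b⟩

end Spec

end Pool.Agent.P.MP_471da3_lc.D
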