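import Pool.Agent.P.MP_471da3_lc.Meas

/-!
The weighted measure on pairs (index, oracle), the convergence sets and a primitive recursive
test for the size of their differences.
-/

namespace Pool.Agent.P.MP_471da3_lc.D

open Pool.Agent.Lib.Comp Filter Encodable MeasureTheory
open scoped ENNReal

section
variable {α β : Type*} [Primcodable α] [Primcodable β]

@[fun_prop] theorem pr_filter {f : α → List β} {g : α → β → Bool} (hf : Primrec f)
    (hg : Primrec (fun p : α × β => g p.1 p.2)) : Primrec (fun x => (f x).filter (g x)) := by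
  have h : Primrec (fun x => (f x).foldr (fun b r => cond (g x b) (b :: r) r) []) := by fun_prop
  refine h.of_eq fun x => ?_
  induction f x with
  | nil => rfl
  | cons b l ih =>
    rw [List.foldr_cons, ih, List.filter_cons]
    cases g x b <;> rfl

@[fun_prop] theorem pr_sum {f : α → List ℕ} (hf : Primrec f) : Primrec (fun x => (f x).sum) := by
  have h : Primrec (fun x => (f x).foldr (fun b r => b + r) 0) := by fun_prop
  exact h.of_eq fun x => rfl

end

theorem Un_le {e s t : ℕ} {σ : List Bool} {z y : ℕ} (hst : s ≤ t) (h : Un e s σ z = some y) :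
    Un e t σ z = some y :=
  Option.mem_def.1 (Nat.Partrec.Code.evaln_mono hst (Option.mem_def.2 h))

def cv (e m t : ℕ) (σ : List Bool) : Bool :=
  (List.range (m + 1)).all fun n => ltb n e || (List.range (t + 1)).any fun c =>
    (Un e t (σ.take c) n).elim false fun y => ltb y t

@[fun_prop] theorem pr_cv {α : Type*} [Primcodable α] {e m t : α → ℕ} {σ : α → List Bool}
    (h1 : Primrec e) (h2 : Primrec m) (h3 : Primrec t) (h4 : Primrec σ) :
    Primrec fun a => cv (e a) (m a) (t a) (σ a) := by unfold cv; fun_prop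

/-- The functional `z.1` converges on the oracle `z.2` for all inputs in `[z.1, m]` within `t`. -/
def CC (m t : ℕ) : Set (ℕ × (ℕ → Bool)) :=
  {z | ∀ n ≤ m, z.1 ≤ n → ∃ c ≤ t, ∃ y < t, Un z.1 t (res z.2 c) n = some y}

theorem cv_res {e m t L : ℕ} {X : ℕ → Bool} (h : t ≤ L) :
    cv e m t (res X L) = true ↔ (e, X) ∈ CC m t := by
  simp only [cv, CC, List.all_eq_true, List.mem_range, Bool.or_eq_true, ltb_true, List.any_eq_true,
    Set.mem_ofPred_eq, Nat.lt_succ_iff]
  refine forall₂_congr fun n _ => ?_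
  rw [or_iff_not_imp_left, not_lt]
  refine imp_congr_right fun _ => exists_congr fun c => and_congr_right fun hc => ?_
  rw [take_res X (hc.trans h)]
  cases Un e t (res X c) n <;> simp

theorem CC_mono {m m' t t' : ℕ} (hm : m' ≤ m) (ht : t ≤ t') : CC m t ⊆ CC m' t' := by
  intro z hz n hn he
  obtain ⟨c, hc, y, hy, h⟩ := hz n (hn.trans hm) he
  exact ⟨c, hc.trans ht, y, hy.trans_le ht, Un_le ht h⟩

def strs (L : ℕ) : List (List Bool) :=
  Nat.rec [[]] (fun _ l => l.map (false :: ·) ++ l.map (true :: ·)) L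

@[fun_prop] theorem pr_strs {α : Type*} [Primcodable α] {e : α → ℕ} (h1 : Primrec e) :
    Primrec fun a => strs (e a) := by unfold strs; fun_prop

theorem strs_succ (L : ℕ) :
    strs (L + 1) = (strs L).map (false :: ·) ++ (strs L).map (true :: ·) := rfl

theorem mem_strs {L : ℕ} {σ : List Bool} : σ ∈ strs L ↔ σ.length = L := by
  induction L generalizing σ with
  | zero => simp [strs]
  | succ L ih =>
    rw [strs_succ]
    cases σ with
    | nil => simp
    | cons b σ => cases b <;> simp [ih]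

theorem nodup_strs (L : ℕ) : (strs L).Nodup := by
  induction L with
  | zero => simp [strs]
  | succ L ih =>
    rw [strs_succ]
    refine List.Nodup.append (ih.map fun _ _ h => by simpa using h)
      (ih.map fun _ _ h => by simpa using h) ?_
    intro σ h1 h2
    simp only [List.mem_map] at h1 h2
    obtain ⟨a, -, rfl⟩ := h1
    simp at h2

theorem cyl_spec {σ : List Bool} :
    MeasurableSet {X | res X σ.length = σ} ∧ mu {X | res X σ.length = σ} = 2⁻¹ ^ σ.length := by
  have e : {X | res X σ.length = σ} =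
      Set.pi (Finset.range σ.length : Set ℕ) fun i => {σ.getD i false} := by
    ext X
    simp only [Set.mem_ofPred_eq, Set.mem_pi, Finset.coe_range, Set.mem_Iio, Set.mem_singleton_iff]
    constructor
    · intro h i hi
      rw [← h, getD_res X hi]
    · intro h
      refine List.ext_getElem (by simp) fun i h1 h2 => ?_
      simp [res, h i h2, List.getD_eq_getElem?_getD, h2]
  rw [e]
  refine ⟨MeasurableSet.pi (Finset.range _).countable_toSet fun i _ => measurableSet_singleton _, ?_⟩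
  rw [mu, Measure.infinitePi_pi _ fun i _ => measurableSet_singleton _]
  simp [coin_single]

theorem clopen_spec (P : List Bool → Bool) (L : ℕ) : MeasurableSet {X | P (res X L) = true} ∧
    mu {X | P (res X L) = true} = ((strs L).filter P).length * 2⁻¹ ^ L := by
  have e : {X | P (res X L) = true} =
      ⋃ σ ∈ ((strs L).filter P).toFinset, {X | res X σ.length = σ} := by
    ext X
    simp only [Set.mem_ofPred_eq, List.mem_toFinset, List.mem_filter, mem_strs, Set.mem_iUnion]
    exact ⟨fun h => ⟨res X L, ⟨by simp, h⟩, by simp⟩, fun ⟨σ, ⟨a, b⟩, c⟩ => by rw [← a, c, b]⟩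
  rw [e]
  refine ⟨Finset.measurableSet_biUnion _ fun σ _ => cyl_spec.1, ?_⟩
  rw [measure_biUnion_finset _ fun σ _ => cyl_spec.1, Finset.sum_congr rfl (g := fun _ => 2⁻¹ ^ L),
    Finset.sum_const, List.toFinset_card_of_nodup ((nodup_strs L).filter _), nsmul_eq_mul]
  · intro σ hσ
    simp only [List.mem_toFinset, List.mem_filter, mem_strs] at hσ
    rw [cyl_spec.2, hσ.1]
  · intro σ hσ τ hτ hne
    simp only [Finset.mem_coe, List.mem_toFinset, List.mem_filter, mem_strs] at hσ hτ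
    refine Set.disjoint_left.2 fun X a b => hne ?_
    simp only [Set.mem_ofPred_eq] at a b
    rw [← a, ← b, hσ.1, hτ.1]

theorem meas_CC (m t : ℕ) : MeasurableSet (CC m t) := by
  have : CC m t = ⋃ e, {e} ×ˢ {X | cv e m t (res X t) = true} := by
    ext ⟨e, X⟩
    simp [cv_res]
  rw [this]
  exact MeasurableSet.iUnion fun e => (measurableSet_singleton e).prod (clopen_spec _ t).1

noncomputable def nu : Measure (ℕ × (ℕ → Bool)) :=
  Measure.sum fun e => (2⁻¹ : ℝ≥0∞) ^ e • mu.map (Prod.mk e)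

theorem nu_apply {S : Set (ℕ × (ℕ → Bool))} (h : MeasurableSet S) :
    nu S = ∑' e, 2⁻¹ ^ e * mu (Prod.mk e ⁻¹' S) := by
  rw [nu, Measure.sum_apply _ h]
  refine tsum_congr fun e => ?_
  rw [Measure.smul_apply, Measure.map_apply measurable_prodMk_left h, smul_eq_mul]

instance : IsFiniteMeasure nu := ⟨by
  rw [nu_apply MeasurableSet.univ]
  simp⟩

/-- The test `nu (CC n t \ ⋂ q ∈ S, CC q.1 q.2) ≤ 2 ^ (-j)`. -/
def sm (n t : ℕ) (S : List (ℕ × ℕ)) (j : ℕ) : Bool :=
  leb (((List.range ((S.map (·.1)).sum + 1)).map fun e => 2 ^ ((S.map (·.1)).sum + 1 - e) *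
    ((strs (t + (S.map (·.2)).sum)).filter fun σ =>
      cv e n t σ && !S.all fun q => cv e q.1 q.2 σ).length).sum * 2 ^ j)
    (2 ^ ((S.map (·.1)).sum + 1 + (t + (S.map (·.2)).sum)))

@[fun_prop] theorem pr_sm {α : Type*} [Primcodable α] {n t j : α → ℕ} {S : α → List (ℕ × ℕ)}
    (h1 : Primrec n) (h2 : Primrec t) (h3 : Primrec S) (h4 : Primrec j) :
    Primrec fun a => sm (n a) (t a) (S a) (j a) := by unfold sm; fun_prop

theorem sm_iff (n t : ℕ) (S : List (ℕ × ℕ)) (j : ℕ) :
    sm n t S j = true ↔ nu (CC n t \ ⋂ q ∈ S, CC q.1 q.2) ≤ 2⁻¹ ^ j := by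
  unfold sm
  have h1 : ∀ q ∈ S, q.1 < (S.map (·.1)).sum + 1 := fun q hq =>
    Nat.lt_succ_of_le (List.single_le_sum (by simp) _ (List.mem_map_of_mem hq))
  have h2 : ∀ q ∈ S, q.2 ≤ t + (S.map (·.2)).sum := fun q hq =>
    le_add_left (List.single_le_sum (by simp) _ (List.mem_map_of_mem hq))
  have h3 : t ≤ t + (S.map (·.2)).sum := Nat.le_add_right _ _
  generalize (S.map (·.1)).sum + 1 = M at h1 ⊢
  generalize t + (S.map (·.2)).sum = L at h2 h3 ⊢
  have hm : MeasurableSet (CC n t \ ⋂ q ∈ S, CC q.1 q.2) :=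
    (meas_CC n t).diff (MeasurableSet.biInter (Set.to_countable _) fun q _ => meas_CC _ _)
  have he : ∀ e, Prod.mk e ⁻¹' (CC n t \ ⋂ q ∈ S, CC q.1 q.2) =
      {X | (cv e n t (res X L) && !S.all fun q => cv e q.1 q.2 (res X L)) = true} := by
    intro e
    ext X
    simp only [Set.mem_preimage, Set.mem_sdiff, Set.mem_iInter, Set.mem_ofPred_eq, Bool.and_eq_true,
      cv_res h3, Bool.not_eq_true', ← Bool.not_eq_true, List.all_eq_true]
    exact and_congr_right fun _ => not_congr (forall₂_congr fun q hq => (cv_res (h2 q hq)).symm)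
  rw [nu_apply hm, tsum_eq_sum (s := Finset.range M)]
  · simp only [he, fun e => (clopen_spec
      (fun σ => cv e n t σ && !S.all fun q => cv e q.1 q.2 σ) L).2]
    generalize hc : (fun e => ((strs L).filter fun σ =>
      cv e n t σ && !S.all fun q => cv e q.1 q.2 σ).length) = c
    simp only [fun e => congrFun hc e]
    have k : ∀ a : ℕ, (2⁻¹ : ℝ≥0∞) ^ a * 2 ^ a = 1 := fun a => by
      rw [← mul_pow, ENNReal.inv_mul_cancel (by simp) (by simp), one_pow]
    have e1 : (∑ e ∈ Finset.range M, (2⁻¹ : ℝ≥0∞) ^ e * (c e * 2⁻¹ ^ L)) * (2 ^ (M + L) * 2 ^ j) =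
        ((((List.range M).map fun e => 2 ^ (M - e) * c e).sum * 2 ^ j : ℕ) : ℝ≥0∞) := by
      have e0 : ((List.range M).map fun e => 2 ^ (M - e) * c e).sum =
          ∑ e ∈ Finset.range M, 2 ^ (M - e) * c e := rfl
      rw [← mul_assoc, Finset.sum_mul, Nat.cast_mul, e0]
      push_cast
      congr 1
      refine Finset.sum_congr rfl fun e he => ?_
      obtain ⟨d, rfl⟩ := Nat.exists_eq_add_of_le (Finset.mem_range.1 he).le
      rw [Nat.add_sub_cancel_left, pow_add, pow_add]
      calc _ = (2⁻¹ ^ e * 2 ^ e) * (2⁻¹ ^ L * 2 ^ L) * (2 ^ d * (c e : ℝ≥0∞)) := by ring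
        _ = _ := by rw [k, k, one_mul, one_mul]
    rw [leb_true, ← Nat.cast_le (α := ℝ≥0∞), ← e1, ← ENNReal.mul_le_mul_iff_left
      (a := ∑ e ∈ Finset.range M, _) (c := 2 ^ (M + L) * 2 ^ j) (by simp) (by finiteness)]
    rw [mul_left_comm (2⁻¹ ^ j), k, mul_one]
    simp
  · intro e hM
    have : Prod.mk e ⁻¹' (CC n t \ ⋂ q ∈ S, CC q.1 q.2) = ∅ := by
      refine Set.eq_empty_of_forall_notMem fun X hX => hX.2 ?_
      simp only [Set.mem_iInter]
      intro q hq k hk hk'
      have := h1 q hq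
      simp only [Finset.mem_range] at hM hk'
      omega
    simp [this]

def CI (m : ℕ) : Set (ℕ × (ℕ → Bool)) := ⋃ t, CC m t

def TT : Set (ℕ × (ℕ → Bool)) := ⋂ m, CI m

theorem meas_CI (m : ℕ) : MeasurableSet (CI m) := MeasurableSet.iUnion fun t => meas_CC m t

theorem meas_TT : MeasurableSet TT := MeasurableSet.iInter meas_CI

theorem small_of_anti {S : ℕ → Set (ℕ × (ℕ → Bool))} (hm : ∀ n, MeasurableSet (S n))
    (ha : Antitone S) (h0 : ⋂ n, S n = ∅) {δ : ℝ≥0∞} (hδ : 0 < δ) : ∀ᶠ n in atTop, nu (S n) ≤ δ := by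
  have := tendsto_measure_iInter_atTop (μ := nu) (fun n => (hm n).nullMeasurableSet) ha
    ⟨0, measure_ne_top _ _⟩
  rw [h0, measure_empty] at this
  exact (this.eventually (ge_mem_nhds hδ))

theorem tail_t (m : ℕ) {δ : ℝ≥0∞} (hδ : 0 < δ) : ∀ᶠ t in atTop, nu (CI m \ CC m t) ≤ δ := by
  refine small_of_anti (fun t => (meas_CI m).diff (meas_CC m t))
    (fun t t' h => Set.sdiff_subset_sdiff_right (CC_mono le_rfl h)) ?_ hδ
  rw [← Set.sdiff_iUnion, CI, Set.sdiff_self]

theorem tail_m {δ : ℝ≥0∞} (hδ : 0 < δ) : ∀ᶠ m in atTop, nu (CI m \ TT) ≤ δ := by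
  refine small_of_anti (fun m => (meas_CI m).diff meas_TT) (fun m m' h =>
    Set.sdiff_subset_sdiff_left (Set.iUnion_mono fun t => CC_mono h le_rfl)) ?_ hδ
  refine Set.eq_empty_of_forall_notMem fun z hz => ?_
  simp only [Set.mem_iInter] at hz
  exact (hz 0).2 (Set.mem_iInter.2 fun m => (hz m).1)

theorem lim_le {m p : ℕ} {δ : ℝ≥0∞} (h : ∃ᶠ s in atTop, nu (CC m s \ CC m p) ≤ δ) :
    nu (CI m \ CC m p) ≤ δ := by
  rw [CI, Set.iUnion_sdiff, Monotone.measure_iUnion
    fun s t hst => Set.sdiff_subset_sdiff_left (CC_mono le_rfl hst)]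
  refine iSup_le fun s => ?_
  obtain ⟨t, h1, h2⟩ := (h.and_eventually (eventually_ge_atTop s)).exists
  exact (measure_mono (Set.sdiff_subset_sdiff_left (CC_mono le_rfl h2))).trans h1

/-- Summable junk. -/
theorem junk {Lv : Set ℕ} {Dd V W : ℕ → Set (ℕ × (ℕ → Bool))} (hV : ∀ n, nu (V n) ≤ 2⁻¹ ^ n)
    (hW : ∀ n, nu (W n) ≤ 2⁻¹ ^ n)
    (h : ∀ N, ∀ᶠ x in atTop, x ∈ Lv → TT \ Dd x ⊆ ⋃ n, V (n + N) ∪ W (n + N)) {δ : ℝ≥0∞}
    (hδ : 0 < δ) : ∀ᶠ p in atTop, nu (TT \ ⋂ x ∈ Lv ∩ Set.Ici p, Dd x) ≤ δ := by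
  have h1 : ∑' n, (2⁻¹ ^ n + 2⁻¹ ^ n : ℝ≥0∞) ≠ ⊤ := by
    rw [ENNReal.tsum_add]
    simp
  obtain ⟨N, hN⟩ := ((ENNReal.tendsto_sum_nat_add _ h1).eventually (ge_mem_nhds hδ)).exists
  obtain ⟨x0, hx⟩ := eventually_atTop.1 (h N)
  filter_upwards [eventually_ge_atTop x0] with p hp
  refine le_trans (measure_mono (t := ⋃ n, V (n + N) ∪ W (n + N)) fun z hz => ?_)
    ((measure_iUnion_le _).trans (le_trans (ENNReal.tsum_le_tsum fun n => ?_) hN))
  · have := hz.2
    simp only [Set.mem_iInter, not_forall] at this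
    obtain ⟨x, hx1, hx2⟩ := this
    exact hx x (hp.trans hx1.2) hx1.1 ⟨hz.1, hx2⟩
  · exact (measure_union_le _ _).trans (add_le_add (hV _) (hW _))

end Pool.Agent.P.MP_471da3_lc.D
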