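import Pool.Agent.P.MP_471da3_lc.D.Inv

/-!
Permanent nodes and the true path.
-/

namespace Pool.Agent.P.MP_471da3_lc.D

open Pool.Agent.Lib.Comp Filter MeasureTheory
open scoped ENNReal

/-- The node is never removed. -/
def Data.Perm (R : Data) (γ : ℕ) : Prop := ∀ s, γ < s → R.st s γ ≠ 0

/-- The scan reaches position `b` for good, and `q` is the largest guess seen there cofinally. -/
def Data.H (R : Data) (b q : ℕ) : Prop :=
  (∀ᶠ s in atTop, b ≤ R.sp s ∧ R.thr s b ≤ q) ∧ ∃ᶠ s in atTop, R.cur s b = q ∧ R.thr s b = q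

/-- Nodes on the true path. -/
def Data.T (R : Data) (b : ℕ) : Prop := R.Perm b ∧ R.H b (R.par b)

namespace Spec
variable {R : Data} (h : Spec R)
include h

theorem perm_or (x : ℕ) : R.Perm x ∨ ∀ᶠ s in atTop, R.st s x = 0 := by
  by_cases c : R.Perm x
  · exact Or.inl c
  · simp only [Data.Perm, not_forall, not_not] at c
    obtain ⟨s, a, b⟩ := c
    exact Or.inr (eventually_atTop.2 ⟨s, fun t ht => h.dead a b ht⟩)

theorem perm_ev {γ s : ℕ} (p : R.Perm γ) (hs : γ < s) : 2 ≤ R.ev s γ :=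
  (h.kept_iff hs).1 (p _ (by omega))

theorem perm_of {x s : ℕ} (l : ∀ t, s ≤ t → R.st t x ≠ 0) : R.Perm x := fun t ht d =>
  l (max s t) (le_max_left _ _) (h.dead ht d (le_max_right _ _))

theorem perm_down {x y s : ℕ} (p : R.Perm y) (hx : x < y) (hs : y < s) (l : R.st s x ≠ 0) :
    R.Perm x := h.perm_of fun t ht => h.final hx hs l ht (p t (by omega))

theorem settle {γ : ℕ} (p : R.Perm γ) (e : ∀ᶠ s in atTop, R.ev s γ ≠ 4) :
    ∀ᶠ s in atTop, R.ev s γ = 6 := by
  classical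
  obtain ⟨s0, h0⟩ := eventually_atTop.1 (e.and (eventually_gt_atTop γ))
  let r : ℕ → ℕ := fun s => R.st s γ % 4 - 1
  have k : ∀ s, s0 ≤ s → r (s + 1) ≤ r s ∧ (r (s + 1) = r s → R.ev s γ = 6) := fun s hs => by
    have h1 := h0 s hs
    have h2 := h.st_old h1.2 (p _ (by omega))
    simp only [r]
    omega
  have ex : ∃ n, ∃ s, s0 ≤ s ∧ r s = n := ⟨_, s0, le_rfl, rfl⟩
  obtain ⟨s1, a1, a2⟩ := Nat.find_spec ex
  have lo : ∀ s, s0 ≤ s → r s1 ≤ r s := fun s hs => a2 ▸ Nat.find_min' ex ⟨s, hs, rfl⟩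
  have hi : ∀ s, s1 ≤ s → r s ≤ r s1 := fun s hs => by
    induction s, hs using Nat.le_induction with
    | base => exact le_rfl
    | succ s hs ih => exact (k s (by omega)).1.trans ih
  refine eventually_atTop.2 ⟨s1, fun s hs => (k s (by omega)).2 ?_⟩
  have := lo s (by omega)
  have := lo (s + 1) (by omega)
  have := hi s hs
  have := hi (s + 1) (by omega)
  omega

theorem four {γ s t : ℕ} (p : R.Perm γ) (e : R.st s γ = 4) (ht : s ≤ t) :
    R.st t γ = 4 ∧ R.ev t γ = 6 := by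
  have h0 := h.live_lt (s := s) (x := γ) (by omega)
  have k : R.st t γ = 4 := by
    induction t, ht using Nat.le_induction with
    | base => exact e
    | succ t ht ih => have := h.st_old (s := t) (by omega) (p _ (by omega)); omega
  have := h.st_old (s := t) (by omega) (p _ (by omega))
  omega

theorem const {γ s t : ℕ} (hs : γ < s) (e : ∀ t, s ≤ t → R.ev t γ = 6) (ht : s ≤ t) :
    R.st t γ = R.st s γ ∧ R.cA t γ = R.cA s γ ∧ R.cB t γ = R.cB s γ ∧ R.dl t γ = R.dl s γ := by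
  induction t, ht using Nat.le_induction with
  | base => exact ⟨rfl, rfl, rfl, rfl⟩
  | succ t ht ih =>
    have h1 : γ < t := by omega
    rw [h.stS t γ h1, h.cAS t γ h1, h.cBS t γ h1, h.dlS t γ h1, e t ht]
    simpa using ih

theorem H_zero : R.H 0 0 := by
  refine ⟨Eventually.of_forall fun s => ?_, Frequently.of_forall fun s => ?_⟩ <;>
    have := h.acc0 s <;> omega

theorem H_le {b q : ℕ} (a : R.H b q) : q ≤ b := by
  obtain ⟨s, h1⟩ := a.2.exists
  have := h.acc_le s b
  omega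

theorem H_par {b q : ℕ} (a : R.H b q) (p : R.Perm b) : q ≤ R.par b := by
  obtain ⟨s, h1, h2⟩ := (a.2.and_eventually (eventually_gt_atTop b)).exists
  have := (h.evk s b (h.perm_ev p h2)).1
  omega

theorem H_idle {b q : ℕ} (a : R.H b q) (e : ∀ᶠ s in atTop, R.ev s b = 0 ∨ R.ev s b = 6) :
    R.H (b + 1) q := by
  refine ⟨?_, (a.2.and_eventually e).mono fun s ⟨h1, h2⟩ => ?_⟩
  · filter_upwards [a.1, e, eventually_gt_atTop b] with s h1 h2 h3
    rw [h.thrS, if_neg (by omega)]
    refine ⟨?_, h1.2⟩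
    by_contra hn
    obtain rfl : b = R.sp s := by omega
    have := h.P_eq s h3
    omega
  · rw [h.thrS, h.curS, if_neg (by omega), if_neg (by omega)]
    exact h1

theorem H_exp {b : ℕ} (p : R.Perm b) (e : ∃ᶠ s in atTop, R.ev s b = 4) : R.H (b + 1) (b + 1) := by
  refine ⟨?_, e.mono fun s h1 => ?_⟩
  · filter_upwards [eventually_gt_atTop b] with s hs
    refine ⟨?_, (h.acc_le s _).2.1⟩
    have h1 := h.st_old hs (p _ (by omega))
    refine h.lt_sp ?_
    by_contra hn
    obtain ⟨t, h2, h3⟩ := (e.and_eventually (eventually_ge_atTop (s + 1))).exists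
    have := h.four p (s := s + 1) (by omega) h3
    omega
  · rw [h.thrS, h.curS, if_pos h1, if_pos (Or.inr h1)]
    exact ⟨rfl, rfl⟩

theorem H_adv {b q : ℕ} (a : R.H b q) (c : R.Perm b → R.par b ≠ q) : R.H (b + 1) q := by
  refine h.H_idle a ?_
  rcases h.perm_or b with p | p
  · refine (h.settle p ?_).mono fun s => Or.inr
    filter_upwards [a.1] with s h1 h2
    have := (h.evB s b (Or.inl h2)).2
    have := h.H_par a p
    have := c p
    omega
  · exact p.mono fun s hs => Or.inl ((h.ev0 s b).2 (Or.inr hs))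

theorem H_range {b c q : ℕ} (a : R.H b q) (hc : b ≤ c)
    (e : ∀ x, b ≤ x → x < c → R.Perm x → R.par x ≠ q) : R.H c q := by
  induction c, hc using Nat.le_induction with
  | base => exact a
  | succ c hc ih => exact h.H_adv (ih fun x a b => e x a (by omega)) (e c hc (by omega))

theorem inf {b q : ℕ} (a : R.H b q) : ∃ y, b ≤ y ∧ R.Perm y ∧ R.par y = q := by
  classical
  by_contra hn
  simp only [not_exists, not_and] at hn
  have hall : ∀ x, b ≤ x → R.H x q := fun x hx => h.H_range a hx fun y c _ => hn y c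
  have hpar : ∀ x, b ≤ x → R.Perm x → q < R.par x := fun x hx p =>
    lt_of_le_of_ne (h.H_par (hall x hx) p) (Ne.symm (hn x hx p))
  obtain ⟨b', h0⟩ := eventually_atTop.1 (a.1.and (eventually_ge_atTop b))
  have hb := (h0 b' le_rfl).2
  have PAR : ∀ y t, b' ≤ y → y < t → R.st t y ≠ 0 → q < R.par y →
      ∃ p, b ≤ p ∧ p < y ∧ R.st t p ≠ 0 ∧ R.par p ≤ q := fun y t c1 c2 c3 c4 => by
    obtain ⟨p, p1, p2, p3, p4⟩ := h.cur_jump (s := y) (q := q) (hb.trans c1)
      ((h.acc_le y b).1.trans (h0 y c1).1.2) (h.parN y ▸ c4)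
    exact ⟨p, p1, p2, h.final p2 (Nat.lt_succ_self y) ((h.kept_iff p2).2 (by omega)) c2 c3, p4⟩
  have np : ∀ x, b' ≤ x → ¬R.Perm x := fun x hx p => by
    obtain ⟨y, y1, y2, y3, y4⟩ := PAR x (x + 1) hx (by omega) (p _ (by omega)) (hpar x (by omega) p)
    have := hpar y y1 (h.perm_down p y2 (by omega) y3)
    omega
  have e3 : ∀ᶠ t in atTop, ∀ m ∈ Set.Iic b', nu (CI m \ CC m t) ≤ 2⁻¹ ^ m :=
    (eventually_all_finite (Set.finite_Iic b')).2 fun m _ => tail_t m (ENNReal.pow_pos (by simp) _)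
  obtain ⟨s3, h3⟩ := eventually_atTop.1 (e3.and (eventually_ge_atTop b'))
  have hs3 := (h3 s3 le_rfl).2
  have e4 : ∀ᶠ s in atTop, ∀ x ∈ Set.Iio s3, R.st s x ≠ 0 → R.Perm x :=
    (eventually_all_finite (Set.finite_Iio s3)).2 fun x _ => (h.perm_or x).elim
      (fun p => Eventually.of_forall fun _ _ => p) fun d => d.mono fun s a b => absurd a b
  obtain ⟨s4, h4⟩ := eventually_atTop.1 (e4.and (hall s3 (by omega)).1)
  obtain ⟨s5, h5, h6, h7⟩ := ((hall s3 (by omega)).2.and_eventually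
    ((eventually_ge_atTop s4).and (eventually_ge_atTop s3))).exists
  have ex : ∃ y, s3 ≤ y ∧ R.st (s5 + 1) y ≠ 0 := ⟨s5, h7, by have := h.new_live s5; omega⟩
  obtain ⟨y, ⟨y1, y2⟩, y3⟩ : ∃ y, (s3 ≤ y ∧ R.st (s5 + 1) y ≠ 0) ∧
      ∀ x, s3 ≤ x → x < y → R.st (s5 + 1) x = 0 :=
    ⟨_, Nat.find_spec ex, fun x a b => by_contra fun c => Nat.find_min ex b ⟨a, c⟩⟩
  have y4 := h.live_lt y2
  have y5 := h.acc_dead (s := s5) y1 fun x a b => by
    have := y3 x a b
    have := @kept_iff R h s5 x (by omega)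
    omega
  have y6 : R.par y = q := by
    refine le_antisymm (not_lt.1 fun c => ?_) ?_
    · obtain ⟨p, p1, p2, p3, p4⟩ := PAR y (s5 + 1) (by omega) y4 y2 c
      by_cases c1 : p < s3
      · have := hpar p p1 ((h4 _ (by omega)).1 p c1 p3)
        omega
      · exact p3 (y3 p (by omega) p2)
    · rcases Nat.lt_succ_iff_lt_or_eq.1 y4 with c | rfl
      · have := (h.evk s5 y ((h.kept_iff c).1 y2)).1
        omega
      · rw [h.parN]; omega
  have y7 : R.lab y ≤ b' := by
    rw [h.labN]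
    rcases (h.lt_spec y y).2 with c | ⟨x, x1, x2, x3⟩
    · omega
    · have x4 := h.final x1 (Nat.lt_succ_self y) ((h.kept_iff x1).2 x2) y4 y2
      by_cases c1 : x < s3
      · have := np x
        have := (h4 _ (by omega)).1 x c1 x4
        by_contra c
        exact np x (by omega) this
      · exact absurd (y3 x (by omega) x1) x4
  refine hn y (by omega) (h.perm_of (s := s5 + 1) fun t ht => ?_) y6
  induction t, ht using Nat.le_induction with
  | base => exact y2
  | succ t ht ih =>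
    have d : ∀ x, s3 ≤ x → x < y → R.st t x = 0 := fun x a b => h.dead (by omega) (y3 x a b) ht
    have z1 := h.acc_dead (s := t) y1 fun x a b => by
      have := (h.ev0 t x).2 (Or.inr (d x a b))
      omega
    have z2 := (h4 t (by omega)).2
    have z3 := h.sp_live t
    have z4 := d (R.sp t) z2.1
    have z5 := h.ev0 t y
    have z6 : R.good t y := le_trans (measure_mono (Set.sdiff_subset_sdiff_left
      (Set.subset_iUnion (CC (R.lab y)) t))) ((h3 y y1).1 _ y7)
    have z7 : R.ev t y ≠ 1 := fun a => (h.ev1 t y a).elim (by omega) fun c => c z6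
    exact (h.kept_iff (by omega)).2 (by omega)

theorem nxt {b q : ℕ} (a : R.H b q) : ∃ y, b ≤ y ∧ R.T y ∧ R.par y = q ∧
    ∀ x, b ≤ x → x < y → R.Perm x → R.par x ≠ q := by
  classical
  have ex := h.inf a
  obtain ⟨y1, y2, y3⟩ := Nat.find_spec ex
  have m : ∀ x, b ≤ x → x < Nat.find ex → R.Perm x → R.par x ≠ q := fun x a b c d =>
    Nat.find_min ex b ⟨a, c, d⟩
  exact ⟨_, y1, ⟨y2, by rw [y3]; exact h.H_range a y1 m⟩, y3, m⟩

theorem next {b : ℕ} (t : R.T b) : ∃ y, R.T y ∧ R.dep y = R.dep b + 1 := by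
  have key : ∀ q, (q = R.par b ∨ q = b + 1) → R.H (b + 1) q →
      ∃ y, R.T y ∧ R.dep y = R.dep b + 1 := by
    intro q hq a
    obtain ⟨y, y1, y2, y3, y4⟩ := h.nxt a
    refine ⟨y, y2, ?_⟩
    have c0 := h.par_le b
    have c1 : R.cur y y = q := h.parN y ▸ y3
    have c2 := h.perm_ev t.1 (s := y) y1
    have c3 : ∀ x, b + 1 ≤ x → x ≤ y → R.cur y x = q := fun x a b =>
      (h.cur_const b (by omega)).trans c1
    have c4 : R.par b = R.cur y b := by
      rcases hq with rfl | rfl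
      · exact ((h.cur_const (by omega) (by omega)).trans c1).symm
      · have c5 := c3 (b + 1) le_rfl y1
        have c6 := h.acc_le y b
        rw [h.curS] at c5
        split_ifs at c5 with c7
        · exact (h.evB y b (Or.inl c7)).2.1
        · omega
    have c5 : ∀ x, b + 1 ≤ x → x ≤ y → R.dp y x = R.dep b + 1 := fun x a c => by
      induction x, a using Nat.le_induction with
      | base => rw [h.dpS, if_pos ⟨c2, c4⟩]
      | succ x a ih =>
        rw [h.dpS, if_neg, ih (by omega)]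
        rintro ⟨d1, d2⟩
        exact y4 x a c (h.perm_down y2.1 c (Nat.lt_succ_self y) ((h.kept_iff c).2 d1))
          (d2.trans (c3 x a (by omega)))
    rw [h.depN, c5 y y1 le_rfl]
  by_cases e : ∃ᶠ s in atTop, R.ev s b = 4
  · exact key _ (Or.inr rfl) (h.H_exp t.1 e)
  · exact key _ (Or.inl rfl) (h.H_idle t.2 ((h.settle t.1 (not_frequently.1 e)).mono
      fun s => Or.inr))

theorem true_idx (i : ℕ) : ∃ᶠ γ in atTop, R.T γ ∧ R.idx γ = i := by
  obtain ⟨b, -, t, -⟩ := h.nxt h.H_zero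
  have k : ∀ d, R.dep b ≤ d → ∃ y, R.T y ∧ R.dep y = d := fun d hd => by
    induction d, hd using Nat.le_induction with
    | base => exact ⟨b, t, rfl⟩
    | succ d _ ih =>
      obtain ⟨y, y1, rfl⟩ := ih
      exact h.next y1
  refine frequently_atTop.2 fun N => ?_
  obtain ⟨M, hM⟩ := ((Set.finite_Iio N).image R.dep).bddAbove
  have := Nat.right_le_pair i (max (M + 1) (R.dep b))
  obtain ⟨y, y1, y2⟩ := k _ ((le_max_right _ _).trans this)
  refine ⟨y, not_lt.1 fun c => ?_, y1, by simp [Data.idx, y2]⟩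
  have : R.dep y ≤ M := hM ⟨y, c, rfl⟩
  omega

theorem unfrozen (γ : ℕ) : ∃ᶠ s in atTop, R.thr s γ = R.cur s γ := by
  obtain ⟨y, ⟨y1, -⟩, y2⟩ := ((h.true_idx 0).and_eventually (eventually_ge_atTop γ)).exists
  exact y1.2.2.mono fun s a => h.freeze y2 (a.2.trans a.1.symm)

theorem perm_good {p : ℕ} (a : R.Perm p) :
    nu (CI (R.lab p) \ CC (R.lab p) p) ≤ 2⁻¹ ^ R.lab p :=
  lim_le (((h.unfrozen p).and_eventually (eventually_gt_atTop p)).mono fun s b =>
    (h.evk s p (h.perm_ev a b.2)).2 b.1)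

theorem lt_lab {x y : ℕ} (a : R.Perm x) (hy : x < y) : x < R.lab y :=
  h.labN y ▸ (h.lt_spec y y).1 x hy (h.perm_ev a hy)

theorem lab_inj : Set.InjOn R.lab {p | R.Perm p} := by
  intro x hx y hy e
  have := h.lab_le x
  have := h.lab_le y
  have := @lt_lab R h x y hx
  have := @lt_lab R h y x hy
  omega

theorem perm_lab (m : ℕ) : ∃ x, R.Perm x ∧ m ≤ R.lab x := by
  obtain ⟨y, ⟨y1, -⟩, y2⟩ := ((h.true_idx 0).and_eventually (large_of_inj h.lab_inj m)).exists
  exact ⟨y, y1.1, y2 y1.1⟩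

end Spec

end Pool.Agent.P.MP_471da3_lc.D
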