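import Pool.Agent.P.MP_471da3_lc.D.Run

/-!
The construction satisfies the equations.
-/

namespace Pool.Agent.P.MP_471da3_lc.D.Con

open Pool.Agent.Lib.Comp Filter Encodable MeasureTheory
open scoped ENNReal

def data : Data where
  par x := par (run (x + 1)) x
  dep x := dep (run (x + 1)) x
  k x := kk (run (x + 1)) x
  lab x := lab (run (x + 1)) x
  sp s := sp (run s)
  cut s := cut (run s)
  st s := st (run s)
  cA s := cA (run s)
  cB s := cB (run s)
  u s := uu (run s)
  ev s := E (run s)
  cur s p := (acc (run s) p).2.1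
  thr s p := (acc (run s) p).2.2.1
  dp s p := (acc (run s) p).2.2.2.1
  lt s p := (acc (run s) p).2.2.2.2
  fA s := fA (run s)
  fB s := fB (run s)
  dl s := dl (run s)
  wA s x y := (wA (run s) x).getD y false
  a s := aa (run s)
  b s := bb (run s)

theorem run_succ (s : ℕ) : run (s + 1) = step (run s) := rfl

@[simp] theorem len_run (s : ℕ) : (run s).length = s := by
  induction s with
  | zero => rfl
  | succ s ih => simp [run_succ, step, ih]

theorem rc_lt {s x : ℕ} (h : x < s) : rc (run (s + 1)) x = old (run s) x := by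
  simp [rc, run_succ, step, List.getD_eq_getElem?_getD, List.getElem?_append_left, h]

theorem rc_eq (s : ℕ) : rc (run (s + 1)) s = new (run s) := by
  simp [rc, run_succ, step, List.getD_eq_getElem?_getD]

theorem rc_out {s x : ℕ} (h : s ≤ x) :
    rc (run s) x = ((0, 0, 0, 0, 0), ([], 0, 0, []), false, 0, false) := by
  simp [rc, List.getD_eq_getElem?_getD, h]

theorem stat {s x : ℕ} (h : x < s) : (rc (run s) x).1.2 = (rc (run (x + 1)) x).1.2 := by
  induction s, h using Nat.le_induction with
  | base => rfl
  | succ s h ih => rw [rc_lt h, ← ih]; rfl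

theorem par_eq {s x : ℕ} (h : x < s) : par (run s) x = data.par x := by
  simp only [par, data, stat h]
theorem dep_eq {s x : ℕ} (h : x < s) : dep (run s) x = data.dep x := by
  simp only [dep, data, stat h]
theorem kk_eq {s x : ℕ} (h : x < s) : kk (run s) x = data.k x := by
  simp only [kk, data, stat h]
theorem lab_eq {s x : ℕ} (h : x < s) : lab (run s) x = data.lab x := by
  simp only [lab, data, stat h]
theorem idx_eq {s x : ℕ} (h : x < s) : idx (run s) x = data.idx x := by
  simp only [idx, Data.idx, dep_eq h]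

theorem live_lt {s x : ℕ} (h : st (run s) x ≠ 0) : x < s := by
  by_contra hn
  exact h (by simp [st, rc_out (not_lt.1 hn)])

theorem okA_iff {s p c : ℕ} (hc : c ≤ s) : okA (run s) p c = true ↔ data.okA s p c := by
  simp only [okA, Data.okA, Bool.and_eq_true, ltb_true, Bool.or_eq_true, eqb_true, len_run,
    Bool.not_eq_true', eqb_false, bel_iff, levb_iff, List.all_eq_true, List.mem_range, hc, true_and]
  refine and_congr_right fun hp => ?_
  rw [idx_eq (hp.trans_le hc), Bel.congr hp fun x hx => lab_eq (hx.trans_le hc)]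
  rfl

theorem okB_iff {s p c : ℕ} (hc : c ≤ s) : okB (run s) p c = true ↔ data.okB s p c := by
  simp only [okB, Data.okB, Bool.and_eq_true, ltb_true, len_run,
    Bool.not_eq_true', bel_iff, List.all_eq_true, List.mem_range, hc, true_and]
  refine and_congr_right fun hp => ?_
  rw [idx_eq (hp.trans_le hc), kk_eq (hp.trans_le hc),
    Bel.congr hp fun x hx => lab_eq (hx.trans_le hc)]
  rfl

theorem oA_some {s p : ℕ} (h : (oA (run s) p).isSome = true) : data.okA s p (data.fA s p) := by
  obtain ⟨c, hc⟩ := Option.isSome_iff_exists.1 h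
  have : data.fA s p = c := by simp [data, fA, hc]
  rw [oA, List.find?_range_eq_some, len_run, List.mem_range] at hc
  exact this ▸ (okA_iff (by omega)).1 hc.1

theorem oB_some {s p : ℕ} (h : (oB (run s) p).isSome = true) : data.okB s p (data.fB s p) := by
  obtain ⟨c, hc⟩ := Option.isSome_iff_exists.1 h
  have : data.fB s p = c := by simp [data, fB, hc]
  rw [oB, List.find?_range_eq_some, len_run, List.mem_range] at hc
  exact this ▸ (okB_iff (by omega)).1 hc.1

theorem oA_none {s p c : ℕ} (h : data.okA s p c) : (oA (run s) p).isSome = true := by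
  rw [oA, List.find?_isSome]
  exact ⟨c, by simpa using Nat.lt_succ_of_le h.1, (okA_iff h.1).2 h⟩

theorem oB_none {s p c : ℕ} (h : data.okB s p c) : (oB (run s) p).isSome = true := by
  rw [oB, List.find?_isSome]
  exact ⟨c, by simpa using Nat.lt_succ_of_le h.1, (okB_iff h.1).2 h⟩

theorem agA_iff {s p : ℕ} (h : p < s) : agA (run s) p = true ↔ data.agA s p := by
  simp only [agA, Data.agA, List.all_eq_true, List.mem_range, eqb_true, len_run, idx_eq h]
  rfl

theorem agB_iff {s p : ℕ} (h : p < s) : agB (run s) p = true ↔ data.agB s p := by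
  simp only [agB, Data.agB, List.all_eq_true, List.mem_range, eqb_true, len_run, idx_eq h]
  rfl

theorem good_iff {s p : ℕ} (h : p < s) : good (run s) p = true ↔ data.good s p := by
  simp only [good, Data.good, sm_iff, len_run, lab_eq h, List.mem_singleton, Set.iInter_iInter_eq_left]

theorem acc_succ (L : List Rc) (p : ℕ) : acc L (p + 1) = upd L (acc L p) p (E L p) := rfl

theorem E_cases (L : List Rc) (p : ℕ) :
    (E L p = 0 ∧ ((acc L p).1 < L.length ∨ st L p = 0)) ∨
    (¬(acc L p).1 < L.length ∧ st L p ≠ 0 ∧
      ((E L p = 1 ∧ (par L p < (acc L p).2.2.1 ∨ good L p = false)) ∨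
      ((acc L p).2.2.1 ≤ par L p ∧ ((E L p = 6 ∧ (acc L p).2.2.1 ≠ (acc L p).2.1) ∨
        ((acc L p).2.2.1 = (acc L p).2.1 ∧ good L p = true ∧
          ((st L p = 3 ∧ (oA L p).isSome = true ∧
            ((E L p = 2 ∧ agA L p = true) ∨ (E L p = 3 ∧ agA L p = false))) ∨
          (st L p = 2 ∧ par L p = (acc L p).2.1 ∧ (oB L p).isSome = true ∧
            ((E L p = 4 ∧ agB L p = true) ∨ (E L p = 5 ∧ agB L p = false))) ∨
          (E L p = 6 ∧ ¬(st L p = 3 ∧ (oA L p).isSome = true) ∧
            ¬(st L p = 2 ∧ par L p = (acc L p).2.1 ∧ (oB L p).isSome = true)))))))) := by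
  unfold E ev
  generalize acc L p = ac
  simp only [cond_eq_ite, Bool.or_eq_true, ltb_true, eqb_true, Bool.not_eq_true', eqb_false,
    Bool.and_eq_true]
  split_ifs <;> simp_all

theorem mk_spec (L : List Rc) (p : ℕ) (hp : p ≤ L.length) :
    ((acc L p).1 = L.length ∧ ∀ q < p, E L q ≠ 1 ∧ E L q ≠ 3 ∧ E L q ≠ 5) ∨
    ((acc L p).1 < p ∧ (E L (acc L p).1 = 1 ∨ E L (acc L p).1 = 3 ∨ E L (acc L p).1 = 5) ∧
      (∀ q < (acc L p).1, E L q ≠ 1 ∧ E L q ≠ 3 ∧ E L q ≠ 5) ∧
      ∀ q, (acc L p).1 < q → q ≤ p → (acc L q).1 = (acc L p).1) := by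
  induction p with
  | zero => exact Or.inl ⟨rfl, by simp⟩
  | succ p ih =>
    have e : (acc L (p + 1)).1 = if E L p = 1 ∨ E L p = 3 ∨ E L p = 5 then p else (acc L p).1 := by
      simp [acc_succ, upd, cond_eq_ite]
    rcases ih (by omega) with ⟨h1, h2⟩ | ⟨h1, h2, h3, h4⟩
    · split_ifs at e with h
      · refine Or.inr ⟨by omega, by rwa [e], by rwa [e], fun q a b => ?_⟩
        obtain rfl : q = p + 1 := by omega
        rfl
      · refine Or.inl ⟨e.trans h1, fun q hq => ?_⟩
        rcases Nat.lt_succ_iff_lt_or_eq.1 hq with h5 | rfl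
        · exact h2 q h5
        · omega
    · have : E L p = 0 := by have := E_cases L p; omega
      rw [if_neg (by omega)] at e
      refine Or.inr ⟨by omega, by rwa [e], by rwa [e], fun q a b => ?_⟩
      rcases Nat.le_succ_iff.1 b with h5 | rfl
      · rw [e] at a ⊢
        exact h4 q a h5
      · rfl

theorem stop_iff {s p : ℕ} (hp : p < s) : (acc (run s) p).1 < s ↔ sp (run s) < p := by
  have h1 := mk_spec (run s) p (by simpa using hp.le)
  have h2 := mk_spec (run s) (run s).length le_rfl
  rw [← sp] at h2
  simp only [len_run] at h1 h2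
  rcases h1 with ⟨a1, a2⟩ | ⟨a1, a2, a3, a4⟩ <;> rcases h2 with ⟨b1, b2⟩ | ⟨b1, b2, b3, b4⟩
  · omega
  · have := a2 (sp (run s)); omega
  · have := b2 (acc (run s) p).1; omega
  · have := a3 (sp (run s)); have := b3 (acc (run s) p).1; omega

theorem foldr_max (f : ℕ → ℕ) (l : List ℕ) :
    (∀ γ ∈ l, f γ ≤ l.foldr (fun γ r => max (f γ) r) 0) ∧
    (l.foldr (fun γ r => max (f γ) r) 0 = 0 ∨ ∃ γ ∈ l, l.foldr (fun γ r => max (f γ) r) 0 = f γ) := by
  induction l with
  | nil => simp
  | cons x l ih =>
    rw [List.foldr_cons]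
    refine ⟨fun γ hγ => ?_, ?_⟩
    · rcases List.mem_cons.1 hγ with rfl | h
      · exact le_max_left _ _
      · exact (ih.1 γ h).trans (le_max_right _ _)
    · rcases max_choice (f x) (l.foldr (fun γ r => max (f γ) r) 0) with h | h <;> rw [h]
      · exact Or.inr ⟨x, by simp, rfl⟩
      · exact ih.2.imp_right fun ⟨γ, a, b⟩ => ⟨γ, by simp [a], b⟩

theorem st_lt {s x : ℕ} (h : x < s) : data.st (s + 1) x = nst (run s) x := by
  simp only [data, st, rc_lt h]; rfl

theorem cB_lt {s x : ℕ} (h : x < s) : data.cB (s + 1) x = ncB (run s) x := by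
  simp only [data, cB, rc_lt h]; rfl

theorem idx_new (s : ℕ) : data.idx s = ni (run s) := by
  simp only [data, Data.idx, dep, rc_eq]; rfl

theorem spec : Spec data where
  out s x h := by simp [data, st, uu, aa, bb, rc_out h]
  acc0 s := ⟨rfl, rfl, rfl⟩
  curS s p := by simp [data, acc_succ, upd, cond_eq_ite]
  thrS s p := by simp [data, acc_succ, upd, cond_eq_ite]
  dpS s p := by
    by_cases h : p < s
    · rw [← par_eq h, ← dep_eq h]
      simp [data, acc_succ, upd, cond_eq_ite]
    · have h1 : st (run s) p = 0 := by_contra fun hn => h (live_lt hn)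
      have h2 : E (run s) p = 0 := by have := E_cases (run s) p; omega
      simp [data, acc_succ, upd, h2, leb]
  ltS s p := by simp [data, acc_succ, upd, cond_eq_ite]
  P_le s := by
    have h2 := mk_spec (run s) (run s).length le_rfl
    rw [← sp, len_run] at h2
    change sp (run s) ≤ s
    omega
  P_lt s p h := by
    have h2 := mk_spec (run s) (run s).length le_rfl
    rw [← sp, len_run] at h2
    change p < sp (run s) at h
    rcases h2 with ⟨b1, b2⟩ | ⟨b1, b2, b3, b4⟩
    · exact b2 p (by omega)
    · exact b3 p h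
  P_eq s h := by
    have h2 := mk_spec (run s) (run s).length le_rfl
    rw [← sp, len_run] at h2
    change sp (run s) < s at h
    rcases h2 with ⟨b1, b2⟩ | ⟨b1, b2, b3, b4⟩
    · omega
    · exact b2
  ev_le s p := by
    have := E_cases (run s) p
    change E (run s) p ≤ 6
    omega
  ev0 s p := by
    have := E_cases (run s) p
    change E (run s) p = 0 ↔ sp (run s) < p ∨ st (run s) p = 0
    by_cases h : st (run s) p = 0
    · omega
    · rw [len_run, stop_iff (live_lt h)] at this
      omega
  ev1 s p h := by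
    have := E_cases (run s) p
    change E (run s) p = 1 at h
    have hp : p < s := live_lt (by omega)
    rw [← par_eq hp, ← good_iff hp, Bool.not_eq_true]
    simp only [h] at this
    simp only [data]
    grind
  evk s p h := by
    have := E_cases (run s) p
    change 2 ≤ E (run s) p at h
    have hp : p < s := live_lt (by omega)
    rw [← par_eq hp, ← good_iff hp]
    simp only [data]
    grind
  evA s p h := by
    have := E_cases (run s) p
    change E (run s) p = 2 ∨ E (run s) p = 3 at h
    have hp : p < s := live_lt (by omega)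
    have h1 := @oA_some s p
    rw [← agA_iff hp]
    generalize data.okA s p (data.fA s p) = Q at h1 ⊢
    simp only [data]
    grind
  evB s p h := by
    have := E_cases (run s) p
    change E (run s) p = 4 ∨ E (run s) p = 5 at h
    have hp : p < s := live_lt (by omega)
    have h1 := @oB_some s p
    rw [← agB_iff hp, ← par_eq hp]
    generalize data.okB s p (data.fB s p) = Q at h1 ⊢
    simp only [data]
    grind
  ev6 s p h h0 := by
    have := E_cases (run s) p
    change E (run s) p = 6 at h
    have hp : p < s := live_lt (by omega)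
    rw [← par_eq hp]
    refine ⟨fun h1 c hc => ?_, fun h1 h2 c hc => ?_⟩
    · have h3 := oA_none hc
      simp only [data] at h0 h1
      grind
    · have h3 := oB_none hc
      simp only [data] at h0 h1 h2
      grind
  cutS s := by simp [data, cut, cond_eq_ite]
  stS s x h := by
    rw [st_lt h]
    simp [data, nst, cond_eq_ite]
  dlS s x h := by
    rw [← idx_eq h]
    simp [data, dl, rc_lt h, old, ndl, cond_eq_ite]
  cAS s x h := by simp [data, cA, rc_lt h, old, ncA, cond_eq_ite]
  cBS s x h := by simp [data, cB, rc_lt h, old, ncB, cond_eq_ite]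
  wA2 s x h h2 y hy := by
    change E (run s) x = 2 at h2
    simp only [data, wA, rc_lt h, old, nwA, h2]
    exact getD_res _ hy _
  wAS s x h h2 := by
    change E (run s) x ≠ 2 at h2
    simp only [data, wA, rc_lt h, old, nwA, eqb_false.2 h2]
    rfl
  aS s x h := by
    simp only [data, aa, rc_lt h, old, naa, cond_eq_ite, ltb_true, Bool.and_eq_true, eqb_true]
  uS s x h := by simp [data, uu, rc_lt h, old, nuu, cond_eq_ite]
  bS s x h := by
    have e : data.b (s + 1) x = nbb (run s) x := by simp only [data, bb, rc_lt h]; rfl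
    rw [e, st_lt h]
    simp only [nbb, Bool.or_eq_true, Bool.and_eq_true, eqb_true, List.all_eq_true, len_run,
      List.mem_range, ltb_true, leb_true]
    refine or_congr Iff.rfl (and_congr_right fun _ => forall₂_congr fun γ hγ => ?_)
    rw [st_lt hγ, cB_lt hγ]
    omega
  parN s := by simp [data, par, rc_eq, new]
  depN s := by simp [data, dep, rc_eq, new]
  labN s := by simp [data, lab, rc_eq, new]
  kN s := by
    have e : data.k s = nk (run s) := by simp only [data, kk, rc_eq]; rfl
    have := foldr_max (fun γ => cond (eqb (nst (run s) γ) 3 && eqb (idx (run s) γ) (ni (run s)))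
      (γ + 1) 0) (List.range (run s).length)
    rw [← nk, ← e, len_run] at this
    refine ⟨fun γ h1 h2 h3 => ?_, ?_⟩
    · have h4 := this.1 γ (List.mem_range.2 h1)
      rw [← st_lt h1, h2, idx_eq h1, h3, idx_new] at h4
      simpa [eqb] using h4
    · by_cases h0 : data.k s = 0
      · exact Or.inl h0
      · obtain ⟨γ, h1, h2⟩ := this.2.resolve_left h0
        have h3 := List.mem_range.1 h1
        rw [← st_lt h3, idx_eq h3, ← idx_new, cond_eq_ite] at h2
        split_ifs at h2 with h4
        · simp only [Bool.and_eq_true, eqb_true] at h4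
          exact Or.inr ⟨γ, h3, h4.1, h4.2, h2⟩
        · exact Or.inl h2
  stN s := by
    have e : data.st (s + 1) s = ns (run s) := by simp only [data, st, rc_eq]; rfl
    rw [e, ns, cond_eq_ite]
    simp only [List.any_eq_true, len_run, List.mem_range, Bool.and_eq_true, eqb_true]
    split_ifs with h
    · obtain ⟨γ, h1, h2, h3⟩ := h
      exact Or.inl ⟨rfl, γ, h1, by rwa [st_lt h1], by rwa [← idx_eq h1, idx_new]⟩
    · refine Or.inr ⟨rfl, fun γ h1 h2 h3 => h ⟨γ, h1, by rwa [← st_lt h1], ?_⟩⟩
      rwa [idx_eq h1, ← idx_new]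
  new s := by simp [data, dl, cA, aa, uu, bb, rc_eq, new]
  pa := by simp only [data]; fun_prop
  pb := by simp only [data]; fun_prop
  pu := by simp only [data]; fun_prop
  pdl := by simp only [data]; fun_prop
  plab := by simp only [data]; fun_prop

end Pool.Agent.P.MP_471da3_lc.D.Con
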