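import Pool.Agent.P.MP_471da3_lc.D.Lim
import Pool.Agent.P.MP_471da3_lc.D.RunSpec

/-!
The minimal pair requirements and the main theorem.
-/

namespace Pool.Agent.P.MP_471da3_lc.D

open Pool.Agent.Lib.Comp Filter MeasureTheory
open scoped ENNReal

namespace Spec
variable {R : Data} (h : Spec R) {C : ℕ → ℕ} {i : ℕ} (iA : Idx i.unpair.1 R.A C)
  (iB : Idx i.unpair.2 R.B C)
include h iA iB

theorem no_split {γ s : ℕ} (p : R.Perm γ) (e : R.idx γ = i) : R.st s γ ≠ 4 := by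
  intro e4
  obtain ⟨t, ⟨a, b⟩, c⟩ := (((ev_res h.A_lim (R.cA s γ)).and (ev_res h.B_lim (R.cB s γ))).and
    (eventually_ge_atTop s)).exists
  have h1 := h.const (h.live_lt (by omega)) (fun t ht => (h.four p e4 ht).2) c
  obtain ⟨-, z, y, y', d1, d2, d3⟩ := h.SI (h.four p e4 c).1
  rw [e, h1.2.1] at d2
  rw [e, h1.2.2.1] at d3
  exact d1 (((d2.congr fun x hx => (a x hx).symm).idx iA).trans
    ((d3.congr fun x hx => (b x hx).symm).idx iB).symm)

omit iA iB in
theorem dl_pre {γ s t : ℕ} (hs : γ < s) (ht : s ≤ t) : R.dl s γ <+: R.dl t γ := by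
  induction t, ht using Nat.le_induction with
  | base => exact List.prefix_rfl
  | succ t ht ih =>
    rw [h.dlS t γ (by omega)]
    split_ifs
    · exact ih.trans (List.prefix_append _ _)
    · exact ih

omit iA in
theorem comp_of_exp {γ : ℕ} (e : R.idx γ = i) (c : ∃ᶠ t in atTop, R.ev t γ = 4) :
    Computable C := by
  have k1 : ∀ n, ∃ s, γ < s ∧ n ≤ (R.dl s γ).length := fun n => by
    induction n with
    | zero => exact ⟨γ + 1, by omega, by omega⟩
    | succ n ih =>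
      obtain ⟨s, a, b⟩ := ih
      obtain ⟨t, d1, d2⟩ := (c.and_eventually (eventually_ge_atTop s)).exists
      have := (h.dl_pre a d2).length_le
      refine ⟨t + 1, by omega, ?_⟩
      rw [h.dlS t γ (by omega), if_pos d1, List.length_append, List.length_singleton]
      omega
  have k2 : ∀ s z y, γ < s → (R.dl s γ)[z]? = some y → y = C z := fun s z y hs hy => by
    obtain ⟨t, d1, d2, d3⟩ := (c.and_eventually
      ((V_late iB h.B_lim z).and (eventually_ge_atTop s))).exists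
    obtain ⟨l, hl⟩ := h.dl_pre hs d3
    obtain ⟨z1, z2⟩ := List.getElem?_eq_some_iff.1 hy
    have := (h.evB t γ (Or.inl d1)).2.2.2.2.1 d1 z (by rw [← hl, List.length_append]; omega)
    rw [e] at this
    rw [← d2 _ _ this, ← hl, List.getD_append _ _ _ _ z1, List.getD_eq_getElem?_getD, hy]
    rfl
  have := h.pdl
  have h1 : Primrec fun q : ℕ × ℕ => (R.dl (q.2 + (γ + 1)) γ)[q.1]? := by fun_prop
  refine (Partrec.rfindOpt (f := fun z s => (R.dl (s + (γ + 1)) γ)[z]?) h1.to_comp).of_eq_tot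
    fun z => ?_
  obtain ⟨s, a, b⟩ := k1 (z + 1)
  have h2 : (Nat.rfindOpt fun s => (R.dl (s + (γ + 1)) γ)[z]?).Dom :=
    Nat.rfindOpt_dom.2 ⟨s - (γ + 1), (R.dl s γ)[z], by
      rw [Nat.sub_add_cancel a]; exact List.getElem?_eq_getElem b⟩
  obtain ⟨n, hn⟩ := Nat.rfindOpt_spec (Part.get_mem h2)
  rw [← k2 _ _ _ (by omega) hn]
  exact Part.get_mem h2

omit iB in
theorem few_h : ∀ᶠ γ in atTop, R.Perm γ → R.idx γ = i → ¬∀ᶠ s in atTop, R.st s γ = 3 := by
  filter_upwards [h.smallA.bel h.lab_inj i] with γ hb p e e3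
  have c : ¬∃ᶠ t in atTop, R.ev t γ = 4 := fun c => by
    obtain ⟨t, a, b⟩ := (c.and_eventually e3).exists
    have := (h.evB t γ (Or.inl a)).1
    omega
  obtain ⟨s0, hs⟩ := h.quiet p c
  obtain ⟨c, ⟨c1, -⟩, c2, c3⟩ := ((h.true_idx 0).and_eventually
    ((V_conv iA h.A_lim (R.dl s0 γ).length).and (eventually_gt_atTop γ))).exists
  obtain ⟨s, a0, ⟨a1, a2⟩, ⟨a3, a4⟩, a5⟩ := ((h.unfrozen γ).and_eventually
    ((hs.and e3).and ((c2.and (ev_res h.A_lim c)).and (eventually_gt_atTop c)))).exists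
  refine (h.ev6 s γ a1.1 a0).1 a2 c ⟨a5.le, c3, Or.inr (c1.1 s a5), ?_, ?_⟩
  · rw [e]
    exact (hb p c).mono fun x _ d l => (h.loc fun y hy => a4 y (by omega)).1 l
  · rw [e, a1.2.2.2]
    exact a3

theorem req : Computable C := by
  by_contra hn
  have ne : ∀ γ, R.idx γ = i → ¬∃ᶠ t in atTop, R.ev t γ = 4 := fun γ e c =>
    hn (h.comp_of_exp iB e c)
  obtain ⟨M, hM⟩ := eventually_atTop.1 (h.few_h iA)
  have k1 : ∀ᶠ γ in atTop, ∀ k ∈ Set.Iic M, R.Perm γ →
      ∀ c, Bel R.lab γ c (· ∈ {x | R.B x = false}) (Nat.pair i k) :=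
    (eventually_all_finite (Set.finite_Iic M)).2 fun k _ => h.smallB.bel h.lab_inj _
  obtain ⟨γ, ⟨⟨p, t⟩, e⟩, g1, g2⟩ :=
    ((h.true_idx i).and_eventually (k1.and (eventually_ge_atTop M))).exists
  have k2 : R.k γ ≤ M := by
    by_contra hk
    have k3 : ∀ s, γ < s → R.k γ - 1 < γ ∧ R.idx (R.k γ - 1) = i ∧ R.st s (R.k γ - 1) ≠ 0 ∧
        (R.st s (R.k γ - 1) = 3 ∨ R.Desc s (R.k γ - 1) γ) := fun s hs => by
      obtain ⟨δ, a1, a2, a3, a4⟩ := (h.KU (p s hs)).resolve_left (by omega)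
      rw [a2, Nat.add_sub_cancel]
      exact ⟨a1, a3.trans e, a4⟩
    obtain ⟨b1, b2, b3, -⟩ := k3 (γ + 1) (by omega)
    have b4 := hM _ (by omega) (h.perm_down p b1 (by omega) b3) b2
    obtain ⟨s, c1, c2⟩ := ((not_eventually.1 b4).and_eventually (eventually_gt_atTop γ)).exists
    have b5 := h.desc_ev p c2 ((k3 s c2).2.2.2.resolve_left c1)
    exact ne _ b2 ((t.2.and_eventually (b5.and (eventually_gt_atTop γ))).mono fun s ⟨a, b, c⟩ =>
      h.desc_exp b1 (p s c) a.1.symm b)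
  obtain ⟨s0, hs⟩ := h.quiet p (ne γ e)
  have k4 : R.st s0 γ ≠ 3 := fun a => hM γ g2 p e (hs.mono fun s b => b.2.1.trans a)
  obtain ⟨c, c2, c3⟩ :=
    ((V_conv iB h.B_lim ((R.dl s0 γ).length + 1)).and (eventually_gt_atTop γ)).exists
  obtain ⟨s, a0, a1, ⟨a3, a4⟩, a5⟩ := (t.2.and_eventually
    (hs.and ((c2.and (ev_res h.B_lim c)).and (eventually_gt_atTop c)))).exists
  have k5 : R.st s γ ≠ 1 := fun a => by
    obtain ⟨δ, d1, d2, d3⟩ := h.idle a
    exact h.no_split iA iB (h.perm_down p d1 (s := s) (by omega) (by omega)) (d3.trans e) d2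
  have k6 := h.no_split iA iB (s := s) p e
  have k7 := h.st_le s γ
  have k8 := p s (by omega)
  refine (h.ev6 s γ a1.1 (by omega)).2 (by omega) a0.1.symm c ⟨a5.le, c3, ?_, ?_⟩
  · rw [e]
    exact (g1 _ k2 p c).mono fun x _ d l => (a4 x d).symm.trans l
  · rw [e, a1.2.2.2]
    exact a3

end Spec

theorem main : ∃ A B : ℕ → Bool,
    (∃ U W : ℕ → Prop, REPred U ∧ REPred W ∧ ∀ n, A n = true ↔ U n ∧ ¬W n) ∧
    REPred (fun n => B n = true) ∧ UD A ∧ UD B ∧ ∀ C : ℕ → ℕ,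
      TuringReducible (PFun.lift C) (chi A) → TuringReducible (PFun.lift C) (chi B) →
        Computable C := by
  have h := Con.spec
  have p1 := h.pa
  have p2 := h.pu
  refine ⟨_, _, ⟨_, _, re_ex h.pa, re_ex (by fun_prop), h.A_iff⟩,
    (re_ex h.pb).of_eq fun x => by simp [Data.B], h.udA, h.udB, fun C a b => ?_⟩
  obtain ⟨e0, a⟩ := exists_idx a
  obtain ⟨e1, b⟩ := exists_idx b
  exact h.req (i := Nat.pair e0 e1) (by simpa using a) (by simpa using b)

end Pool.Agent.P.MP_471da3_lc.D
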