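import Pool.Agent.P.MP_471da3_lc.D.Spec

/-!
The construction as a primitive recursive sequence of finite states.
-/

namespace Pool.Agent.P.MP_471da3_lc.D.Con

open Pool.Agent.Lib.Comp Filter Encodable MeasureTheory
open scoped ENNReal

abbrev Rc := (ℕ × ℕ × ℕ × ℕ × ℕ) × (List ℕ × ℕ × ℕ × List Bool) × Bool × ℕ × Bool
abbrev Ac := ℕ × ℕ × ℕ × ℕ × ℕ

def rc (L : List Rc) (x : ℕ) : Rc := L.getD x ((0, 0, 0, 0, 0), ([], 0, 0, []), false, 0, false)
def st (L : List Rc) (x : ℕ) : ℕ := (rc L x).1.1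
def par (L : List Rc) (x : ℕ) : ℕ := (rc L x).1.2.1
def dep (L : List Rc) (x : ℕ) : ℕ := (rc L x).1.2.2.1
def kk (L : List Rc) (x : ℕ) : ℕ := (rc L x).1.2.2.2.1
def lab (L : List Rc) (x : ℕ) : ℕ := (rc L x).1.2.2.2.2
def dl (L : List Rc) (x : ℕ) : List ℕ := (rc L x).2.1.1
def cA (L : List Rc) (x : ℕ) : ℕ := (rc L x).2.1.2.1
def cB (L : List Rc) (x : ℕ) : ℕ := (rc L x).2.1.2.2.1
def wA (L : List Rc) (x : ℕ) : List Bool := (rc L x).2.1.2.2.2
def aa (L : List Rc) (x : ℕ) : Bool := (rc L x).2.2.1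
def uu (L : List Rc) (x : ℕ) : ℕ := (rc L x).2.2.2.1
def bb (L : List Rc) (x : ℕ) : Bool := (rc L x).2.2.2.2
def idx (L : List Rc) (x : ℕ) : ℕ := (dep L x).unpair.1

def okA (L : List Rc) (p c : ℕ) : Bool :=
  ltb p c && ((eqb c L.length || !eqb (st L c) 0) &&
    (bel (lab L) p c (levb (aa L) (uu L)) (idx L p) && (List.range (dl L p).length).all fun z =>
      (V (idx L p).unpair.1 L.length (aa L) c z).isSome))

def okB (L : List Rc) (p c : ℕ) : Bool :=
  ltb p c && (bel (lab L) p c (fun x => !bb L x) (Nat.pair (idx L p) (kk L p)) &&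
    (List.range ((dl L p).length + 1)).all fun z =>
      (V (idx L p).unpair.2 L.length (bb L) c z).isSome)

def oA (L : List Rc) (p : ℕ) : Option ℕ := (List.range (L.length + 1)).find? fun c => okA L p c
def oB (L : List Rc) (p : ℕ) : Option ℕ := (List.range (L.length + 1)).find? fun c => okB L p c
def fA (L : List Rc) (p : ℕ) : ℕ := (oA L p).getD 0
def fB (L : List Rc) (p : ℕ) : ℕ := (oB L p).getD 0

def agA (L : List Rc) (p : ℕ) : Bool := (List.range (dl L p).length).all fun z =>
  eqb (V (idx L p).unpair.1 L.length (aa L) (fA L p) z) (some ((dl L p).getD z 0))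

def agB (L : List Rc) (p : ℕ) : Bool := (List.range (dl L p).length).all fun z =>
  eqb (V (idx L p).unpair.2 L.length (bb L) (fB L p) z) (some ((dl L p).getD z 0))

def good (L : List Rc) (p : ℕ) : Bool := sm (lab L p) L.length [(lab L p, p)] (lab L p)

def ev (L : List Rc) (ac : Ac) (p : ℕ) : ℕ :=
  cond (ltb ac.1 L.length || eqb (st L p) 0) 0 <| cond (ltb (par L p) ac.2.2.1) 1 <|
    cond (!eqb ac.2.2.1 ac.2.1) 6 <| cond (!good L p) 1 <|
      cond (eqb (st L p) 3 && (oA L p).isSome) (cond (agA L p) 2 3) <|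
        cond (eqb (st L p) 2 && (eqb (par L p) ac.2.1 && (oB L p).isSome)) (cond (agB L p) 4 5) 6

def upd (L : List Rc) (ac : Ac) (p e : ℕ) : Ac :=
  (cond (eqb e 1 || (eqb e 3 || eqb e 5)) p ac.1, cond (eqb e 4) (p + 1) ac.2.1,
    cond (eqb e 2 || eqb e 4) (p + 1) ac.2.2.1,
    cond (leb 2 e && eqb (par L p) ac.2.1) (dep L p + 1) ac.2.2.2.1, cond (leb 2 e) (p + 1) ac.2.2.2.2)

def acc (L : List Rc) (p : ℕ) : Ac :=
  Nat.rec (L.length, 0, 0, 0, 0) (fun q ac => upd L ac q (ev L ac q)) p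

def E (L : List Rc) (p : ℕ) : ℕ := ev L (acc L p) p
def sp (L : List Rc) : ℕ := (acc L L.length).1

def cut (L : List Rc) : ℕ :=
  cond (eqb (E L (sp L)) 1) (sp L) <| cond (eqb (E L (sp L)) 3) (fA L (sp L)) <|
    cond (eqb (E L (sp L)) 5) (cA L (sp L)) L.length

def nst (L : List Rc) (x : ℕ) : ℕ :=
  cond (leb (E L x) 1) 0 <| cond (eqb (E L x) 2) 2 <| cond (eqb (E L x) 4) 3 <|
    cond (eqb (E L x) 6) (st L x) 4

def ndl (L : List Rc) (x : ℕ) : List ℕ :=
  cond (eqb (E L x) 4) (dl L x ++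
    [(V (idx L x).unpair.2 L.length (bb L) (fB L x) (dl L x).length).getD 0]) (dl L x)

def ncA (L : List Rc) (x : ℕ) : ℕ := cond (eqb (E L x) 2 || eqb (E L x) 3) (fA L x) (cA L x)
def ncB (L : List Rc) (x : ℕ) : ℕ := cond (eqb (E L x) 4 || eqb (E L x) 5) (fB L x) (cB L x)
def nwA (L : List Rc) (x : ℕ) : List Bool := cond (eqb (E L x) 2) (res (aa L) (fA L x)) (wA L x)

def naa (L : List Rc) (x : ℕ) : Bool :=
  cond (ltb x (cut L))
    (cond (eqb (E L (sp L)) 5 && ltb (sp L) x) ((wA L (sp L)).getD x false) (aa L x))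
    (cond (eqb (uu L x) 0) true (aa L x))

def nuu (L : List Rc) (x : ℕ) : ℕ := cond (leb (cut L) x && eqb (uu L x) 0) L.length (uu L x)

def nbb (L : List Rc) (x : ℕ) : Bool :=
  bb L x || (eqb (nst L x) 0 && (List.range L.length).all fun γ => ltb (nst L γ) 3 || leb (ncB L γ) x)

def ni (L : List Rc) : ℕ := (acc L L.length).2.2.2.1.unpair.1

def nk (L : List Rc) : ℕ := (List.range L.length).foldr
  (fun γ r => max (cond (eqb (nst L γ) 3 && eqb (idx L γ) (ni L)) (γ + 1) 0) r) 0

def ns (L : List Rc) : ℕ :=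
  cond ((List.range L.length).any fun γ => eqb (nst L γ) 4 && eqb (idx L γ) (ni L)) 1 2

def old (L : List Rc) (x : ℕ) : Rc :=
  ((nst L x, (rc L x).1.2), (ndl L x, ncA L x, ncB L x, nwA L x), naa L x, nuu L x, nbb L x)

def new (L : List Rc) : Rc :=
  ((ns L, (acc L L.length).2.1, (acc L L.length).2.2.2.1, nk L, (acc L L.length).2.2.2.2),
    ([], L.length + 1, 0, []), false, 0, false)

def step (L : List Rc) : List Rc := (List.range L.length).map (fun x => old L x) ++ [new L]

def run (s : ℕ) : List Rc := Nat.rec [] (fun _ L => step L) s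

section
variable {α : Type*} [Primcodable α] {L : α → List Rc} {x c e : α → ℕ} {ac : α → Ac}

@[fun_prop] theorem pr_rc (h1 : Primrec L) (h2 : Primrec x) : Primrec fun a => rc (L a) (x a) := by
  unfold rc; fun_prop
@[fun_prop] theorem pr_st (h1 : Primrec L) (h2 : Primrec x) : Primrec fun a => st (L a) (x a) := by
  unfold st; fun_prop
@[fun_prop] theorem pr_par (h1 : Primrec L) (h2 : Primrec x) : Primrec fun a => par (L a) (x a) := by
  unfold par; fun_prop
@[fun_prop] theorem pr_dep (h1 : Primrec L) (h2 : Primrec x) : Primrec fun a => dep (L a) (x a) := by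
  unfold dep; fun_prop
@[fun_prop] theorem pr_kk (h1 : Primrec L) (h2 : Primrec x) : Primrec fun a => kk (L a) (x a) := by
  unfold kk; fun_prop
@[fun_prop] theorem pr_lab (h1 : Primrec L) (h2 : Primrec x) : Primrec fun a => lab (L a) (x a) := by
  unfold lab; fun_prop
@[fun_prop] theorem pr_dl (h1 : Primrec L) (h2 : Primrec x) : Primrec fun a => dl (L a) (x a) := by
  unfold dl; fun_prop
@[fun_prop] theorem pr_cA (h1 : Primrec L) (h2 : Primrec x) : Primrec fun a => cA (L a) (x a) := by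
  unfold cA; fun_prop
@[fun_prop] theorem pr_cB (h1 : Primrec L) (h2 : Primrec x) : Primrec fun a => cB (L a) (x a) := by
  unfold cB; fun_prop
@[fun_prop] theorem pr_wA (h1 : Primrec L) (h2 : Primrec x) : Primrec fun a => wA (L a) (x a) := by
  unfold wA; fun_prop
@[fun_prop] theorem pr_aa (h1 : Primrec L) (h2 : Primrec x) : Primrec fun a => aa (L a) (x a) := by
  unfold aa; fun_prop
@[fun_prop] theorem pr_uu (h1 : Primrec L) (h2 : Primrec x) : Primrec fun a => uu (L a) (x a) := by
  unfold uu; fun_prop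
@[fun_prop] theorem pr_bb (h1 : Primrec L) (h2 : Primrec x) : Primrec fun a => bb (L a) (x a) := by
  unfold bb; fun_prop
@[fun_prop] theorem pr_idx (h1 : Primrec L) (h2 : Primrec x) : Primrec fun a => idx (L a) (x a) := by
  unfold idx; fun_prop
@[fun_prop] theorem pr_okA (h1 : Primrec L) (h2 : Primrec x) (h3 : Primrec c) :
    Primrec fun a => okA (L a) (x a) (c a) := by unfold okA; fun_prop
@[fun_prop] theorem pr_okB (h1 : Primrec L) (h2 : Primrec x) (h3 : Primrec c) :
    Primrec fun a => okB (L a) (x a) (c a) := by unfold okB; fun_prop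
@[fun_prop] theorem pr_oA (h1 : Primrec L) (h2 : Primrec x) : Primrec fun a => oA (L a) (x a) := by
  unfold oA; fun_prop
@[fun_prop] theorem pr_oB (h1 : Primrec L) (h2 : Primrec x) : Primrec fun a => oB (L a) (x a) := by
  unfold oB; fun_prop
@[fun_prop] theorem pr_fA (h1 : Primrec L) (h2 : Primrec x) : Primrec fun a => fA (L a) (x a) := by
  unfold fA; fun_prop
@[fun_prop] theorem pr_fB (h1 : Primrec L) (h2 : Primrec x) : Primrec fun a => fB (L a) (x a) := by
  unfold fB; fun_prop
@[fun_prop] theorem pr_agA (h1 : Primrec L) (h2 : Primrec x) : Primrec fun a => agA (L a) (x a) := by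
  unfold agA; fun_prop
@[fun_prop] theorem pr_agB (h1 : Primrec L) (h2 : Primrec x) : Primrec fun a => agB (L a) (x a) := by
  unfold agB; fun_prop
@[fun_prop] theorem pr_good (h1 : Primrec L) (h2 : Primrec x) :
    Primrec fun a => good (L a) (x a) := by unfold good; fun_prop
@[fun_prop] theorem pr_ev (h1 : Primrec L) (h2 : Primrec ac) (h3 : Primrec x) :
    Primrec fun a => ev (L a) (ac a) (x a) := by unfold ev; fun_prop
@[fun_prop] theorem pr_upd (h1 : Primrec L) (h2 : Primrec ac) (h3 : Primrec x) (h4 : Primrec e) :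
    Primrec fun a => upd (L a) (ac a) (x a) (e a) := by unfold upd; fun_prop
@[fun_prop] theorem pr_acc (h1 : Primrec L) (h2 : Primrec x) : Primrec fun a => acc (L a) (x a) := by
  unfold acc; fun_prop
@[fun_prop] theorem pr_E (h1 : Primrec L) (h2 : Primrec x) : Primrec fun a => E (L a) (x a) := by
  unfold E; fun_prop
@[fun_prop] theorem pr_sp (h1 : Primrec L) : Primrec fun a => sp (L a) := by
  unfold sp; fun_prop
@[fun_prop] theorem pr_cut (h1 : Primrec L) : Primrec fun a => cut (L a) := by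
  unfold cut; fun_prop
@[fun_prop] theorem pr_nst (h1 : Primrec L) (h2 : Primrec x) : Primrec fun a => nst (L a) (x a) := by
  unfold nst; fun_prop
@[fun_prop] theorem pr_ndl (h1 : Primrec L) (h2 : Primrec x) : Primrec fun a => ndl (L a) (x a) := by
  unfold ndl; fun_prop
@[fun_prop] theorem pr_ncA (h1 : Primrec L) (h2 : Primrec x) : Primrec fun a => ncA (L a) (x a) := by
  unfold ncA; fun_prop
@[fun_prop] theorem pr_ncB (h1 : Primrec L) (h2 : Primrec x) : Primrec fun a => ncB (L a) (x a) := by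
  unfold ncB; fun_prop
@[fun_prop] theorem pr_nwA (h1 : Primrec L) (h2 : Primrec x) : Primrec fun a => nwA (L a) (x a) := by
  unfold nwA; fun_prop
@[fun_prop] theorem pr_naa (h1 : Primrec L) (h2 : Primrec x) : Primrec fun a => naa (L a) (x a) := by
  unfold naa; fun_prop
@[fun_prop] theorem pr_nuu (h1 : Primrec L) (h2 : Primrec x) : Primrec fun a => nuu (L a) (x a) := by
  unfold nuu; fun_prop
@[fun_prop] theorem pr_nbb (h1 : Primrec L) (h2 : Primrec x) : Primrec fun a => nbb (L a) (x a) := by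
  unfold nbb; fun_prop
@[fun_prop] theorem pr_ni (h1 : Primrec L) : Primrec fun a => ni (L a) := by
  unfold ni; fun_prop
@[fun_prop] theorem pr_nk (h1 : Primrec L) : Primrec fun a => nk (L a) := by
  unfold nk; fun_prop
@[fun_prop] theorem pr_ns (h1 : Primrec L) : Primrec fun a => ns (L a) := by
  unfold ns; fun_prop
@[fun_prop] theorem pr_old (h1 : Primrec L) (h2 : Primrec x) : Primrec fun a => old (L a) (x a) := by
  unfold old; fun_prop
@[fun_prop] theorem pr_new (h1 : Primrec L) : Primrec fun a => new (L a) := by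
  unfold new; fun_prop
@[fun_prop] theorem pr_step (h1 : Primrec L) : Primrec fun a => step (L a) := by
  unfold step; fun_prop
@[fun_prop] theorem pr_run (h2 : Primrec x) : Primrec fun a => run (x a) := by
  unfold run; fun_prop

end

end Pool.Agent.P.MP_471da3_lc.D.Con
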