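import Pool.Agent.P.MP_471da3_lc.D.Spec

/-!
One stage of the construction: the scan, removal of nodes, descendants.
-/

namespace Pool.Agent.P.MP_471da3_lc.D

open Pool.Agent.Lib.Comp Filter

/-- Every live node in `(γ, δ]` has guessed that `γ` expands infinitely often. -/
def Data.Desc (R : Data) (s γ δ : ℕ) : Prop := ∀ x, γ < x → x ≤ δ → R.st s x ≠ 0 → γ < R.par x

namespace Spec
variable {R : Data} (h : Spec R)
include h

theorem acc_le (s p : ℕ) : R.cur s p ≤ R.thr s p ∧ R.thr s p ≤ p ∧ R.lt s p ≤ p := by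
  induction p with
  | zero => have := h.acc0 s; omega
  | succ p ih => rw [h.curS, h.thrS, h.ltS]; split_ifs <;> omega

theorem acc_mono (s : ℕ) {p q : ℕ} (hpq : p ≤ q) :
    R.cur s p ≤ R.cur s q ∧ R.thr s p ≤ R.thr s q ∧ R.lt s p ≤ R.lt s q := by
  induction q, hpq using Nat.le_induction with
  | base => omega
  | succ q _ ih =>
    have := h.acc_le s q
    rw [h.curS, h.thrS, h.ltS]; split_ifs <;> omega

theorem freeze {s p q : ℕ} (hpq : p ≤ q) (e : R.thr s q = R.cur s q) : R.thr s p = R.cur s p := by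
  induction q, hpq using Nat.le_induction with
  | base => exact e
  | succ q _ ih =>
    refine ih ?_
    have h1 := h.evA s q
    have h2 := h.evB s q
    rw [h.curS, h.thrS] at e
    split_ifs at e <;> tauto

theorem cur_const {s p q : ℕ} (hpq : p ≤ q) (e : R.cur s q ≤ p) : R.cur s p = R.cur s q := by
  induction q, hpq using Nat.le_induction with
  | base => rfl
  | succ q _ ih =>
    rw [h.curS] at e ⊢
    split_ifs at e ⊢ <;> omega

theorem acc_dead {s p q : ℕ} (hpq : p ≤ q) (e : ∀ x, p ≤ x → x < q → R.ev s x ≤ 1) :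
    R.cur s q = R.cur s p ∧ R.thr s q = R.thr s p := by
  induction q, hpq using Nat.le_induction with
  | base => omega
  | succ q hq ih =>
    have := ih fun x a b => e x a (by omega)
    have := e q hq (by omega)
    rw [h.curS, h.thrS]; split_ifs <;> omega

theorem lt_spec (s p : ℕ) : (∀ x < p, 2 ≤ R.ev s x → x < R.lt s p) ∧
    (R.lt s p = 0 ∨ ∃ x < p, 2 ≤ R.ev s x ∧ R.lt s p = x + 1) := by
  induction p with
  | zero => exact ⟨by simp, Or.inl (h.acc0 s).2.2⟩
  | succ p ih =>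
    rw [h.ltS]
    split_ifs with c
    · exact ⟨fun x a _ => a, Or.inr ⟨p, by omega, c, rfl⟩⟩
    · refine ⟨fun x a b => ih.1 x ?_ b, ih.2.imp_right fun ⟨x, a, b⟩ => ⟨x, by omega, b⟩⟩
      rcases Nat.lt_succ_iff_lt_or_eq.1 a with a | rfl
      · exact a
      · exact absurd b c

theorem cur_le {s γ p : ℕ} (h4 : R.ev s γ ≠ 4) (hp : γ < p)
    (e : ∀ x, γ < x → x < p → 2 ≤ R.ev s x → γ < R.par x) : R.cur s p ≤ γ := by
  induction p, hp using Nat.le_induction with
  | base => have := h.acc_le s γ; rw [h.curS, if_neg h4]; omega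
  | succ p hp ih =>
    have h1 := ih fun x a b => e x a (by omega)
    have h2 := e p hp (by omega)
    have h3 := h.evB s p
    rw [h.curS]
    split_ifs with c
    · have := (h3 (Or.inl c)).2.1
      omega
    · exact h1

theorem cur_jump {s b p q : ℕ} (hp : b ≤ p) (h1 : R.cur s b ≤ q) (h2 : q < R.cur s p) :
    ∃ x, b ≤ x ∧ x < p ∧ R.ev s x = 4 ∧ R.par x ≤ q := by
  induction p, hp using Nat.le_induction with
  | base => omega
  | succ p hp ih =>
    by_cases c : q < R.cur s p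
    · obtain ⟨x, a1, a2, a3⟩ := ih c
      exact ⟨x, a1, by omega, a3⟩
    · rw [h.curS] at h2
      split_ifs at h2 with c'
      · have := (h.evB s p (Or.inl c')).2.1
        exact ⟨p, hp, by omega, c', by omega⟩
      · omega

theorem live_lt {s x : ℕ} (hx : R.st s x ≠ 0) : x < s := by
  by_contra hn
  exact hx (h.out s x (not_lt.1 hn)).1

theorem kept {s x : ℕ} (hx : 1 ≤ R.ev s x) : x ≤ R.sp s ∧ R.st s x ≠ 0 ∧ x < s := by
  have := h.ev0 s x
  have := @live_lt R h s x
  omega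

theorem kept_iff {s x : ℕ} (hx : x < s) : R.st (s + 1) x ≠ 0 ↔ 2 ≤ R.ev s x := by
  have := h.ev0 s x
  rw [h.stS s x hx]
  split_ifs <;> omega

theorem below {s x : ℕ} (hx : x < R.sp s) (l : R.st s x ≠ 0) :
    R.ev s x = 2 ∨ R.ev s x = 4 ∨ R.ev s x = 6 := by
  have := h.ev0 s x
  have := h.P_lt s x hx
  have := h.ev_le s x
  omega

theorem at_sp {s x : ℕ} (e : R.ev s x = 1 ∨ R.ev s x = 3 ∨ R.ev s x = 5) : R.sp s = x := by
  have := @kept R h s x
  have := h.P_lt s x
  omega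

theorem lt_sp {s x : ℕ} (e : R.ev s x = 2 ∨ R.ev s x = 4 ∨ R.ev s x = 6) : x < R.sp s := by
  have := @kept R h s x
  have := h.P_eq s
  have := h.P_le s
  by_contra hn
  obtain rfl : x = R.sp s := by omega
  omega

theorem sp_live (s : ℕ) : R.sp s = s ∨ R.st s (R.sp s) ≠ 0 := by
  have := @kept R h s (R.sp s)
  have := h.P_eq s
  have := h.P_le s
  omega

theorem new_live (s : ℕ) : R.st (s + 1) s = 1 ∨ R.st (s + 1) s = 2 :=
  (h.stN s).imp And.left And.left

theorem st_succ {s x : ℕ} (l : R.st (s + 1) x ≠ 0) : x = s ∨ (x < s ∧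
    ((R.ev s x = 2 ∧ R.st s x = 3 ∧ R.st (s + 1) x = 2) ∨
    (R.ev s x = 3 ∧ R.st s x = 3 ∧ R.st (s + 1) x = 4) ∨
    (R.ev s x = 4 ∧ R.st s x = 2 ∧ R.st (s + 1) x = 3) ∨
    (R.ev s x = 5 ∧ R.st s x = 2 ∧ R.st (s + 1) x = 4) ∨
    (R.ev s x = 6 ∧ R.st (s + 1) x = R.st s x))) := by
  have h0 := h.live_lt l
  by_cases hx : x < s
  · have h1 := h.stS s x hx
    have h2 := h.evA s x
    have h3 := h.evB s x
    have h4 := h.ev_le s x
    have h5 : R.ev s x = 2 ∨ R.ev s x = 3 → R.st s x = 3 := fun a => (h2 a).1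
    have h6 : R.ev s x = 4 ∨ R.ev s x = 5 → R.st s x = 2 := fun a => (h3 a).1
    split_ifs at h1 <;> omega
  · omega

theorem st_le (s x : ℕ) : R.st s x ≤ 4 := by
  induction s with
  | zero => have := h.out 0 x (by omega); omega
  | succ s ih =>
    have := @st_succ R h s x
    have := h.new_live s
    by_cases hx : x = s
    · subst hx; omega
    · omega

theorem dead {s t x : ℕ} (hx : x < s) (d : R.st s x = 0) (ht : s ≤ t) : R.st t x = 0 := by
  induction t, ht using Nat.le_induction with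
  | base => exact d
  | succ t ht ih => have := @st_succ R h t x; omega

theorem final {s t x y : ℕ} (hxy : x < y) (hy : y < s) (l : R.st s x ≠ 0) (ht : s ≤ t)
    (ly : R.st t y ≠ 0) : R.st t x ≠ 0 := by
  induction t, ht using Nat.le_induction with
  | base => exact l
  | succ t ht ih =>
    have h1 := (h.kept_iff (by omega)).1 ly
    have h2 := @kept R h t y (by omega)
    have h3 := h.below (x := x) (by omega) (ih h2.2.1)
    exact (h.kept_iff (by omega)).2 (by omega)

theorem desc_succ {s γ δ : ℕ} (k : 2 ≤ R.ev s δ) : R.Desc (s + 1) γ δ ↔ R.Desc s γ δ := by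
  have h2 := @kept R h s δ (by omega)
  refine forall₃_congr fun x a b => imp_congr_left ?_
  have h1 := @kept_iff R h s x (by omega)
  have h3 := @below R h s x
  have h4 := @kept R h s x
  by_cases e : x = δ
  · subst e; omega
  · omega

theorem desc_new {s γ : ℕ} (hγ : γ < s) (d : R.Desc (s + 1) γ s) : R.ev s γ = 4 := by
  by_contra h4
  have h1 := h.cur_le h4 hγ fun x a b c => d x a b.le ((h.kept_iff b).2 c)
  have h2 := d s hγ le_rfl (by have := h.new_live s; omega)
  rw [h.parN] at h2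
  omega

theorem desc_act {s γ δ : ℕ} (e : R.ev s γ = 2 ∨ R.ev s γ = 4) (k : 2 ≤ R.ev s δ) :
    R.Desc s γ δ := by
  intro x a b c
  have h2 := @kept R h s δ (by omega)
  have h3 := @below R h s x
  have h4 : 2 ≤ R.ev s x := by
    by_cases e : x = δ
    · subst e; omega
    · omega
  have h5 := (h.evk s x h4).1
  have h6 := (h.acc_mono s (show γ + 1 ≤ x from a)).2.1
  rw [h.thrS, if_pos e] at h6
  omega

theorem desc_exp {s γ δ : ℕ} (hγ : γ < δ) (l : R.st s δ ≠ 0) (e : R.par δ = R.cur s δ)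
    (d : R.Desc s γ δ) : R.ev s γ = 4 := by
  by_contra h4
  have h1 := h.cur_le h4 hγ fun x a b c => d x a b.le (h.kept (by omega)).2.1
  have h2 := d δ hγ le_rfl l
  omega

theorem rel_frz {s γ δ : ℕ} (e : R.ev s γ = 2) (hγ : γ < δ) : R.ev s δ ≤ 1 ∨ R.ev s δ = 6 := by
  have h1 := @freeze R h s (γ + 1) δ hγ
  have h2 := h.acc_le s γ
  have h3 := h.ev_le s δ
  have h5 : R.ev s δ = 2 ∨ R.ev s δ = 3 → R.thr s δ = R.cur s δ := fun a => (h.evA s δ a).2.1
  have h6 : R.ev s δ = 4 ∨ R.ev s δ = 5 → R.thr s δ = R.cur s δ := fun a => (h.evB s δ a).2.2.1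
  rw [h.thrS, h.curS, if_pos (Or.inl e), if_neg (by omega)] at h1
  omega

theorem cA_bd {s x : ℕ} (hx : x < s) : x < R.cA s x ∧ R.cA s x ≤ s := by
  induction s, hx using Nat.le_induction with
  | base => rw [(h.new x).2.1]; omega
  | succ s hx ih =>
    rw [h.cAS s x hx]
    split_ifs with c
    · have := (h.evA s x c).2.2.1
      exact ⟨this.2.1, this.1.trans (Nat.le_succ s)⟩
    · omega

theorem cA_succ {s x : ℕ} (hx : x < s) : R.cA (s + 1) x ≤ s := by
  rw [h.cAS s x hx]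
  split_ifs with c
  · exact (h.evA s x c).2.2.1.1
  · exact (h.cA_bd hx).2

theorem cut_cases (s : ℕ) : (R.sp s = s ∧ R.cut s = s) ∨ (R.sp s < s ∧
    ((R.ev s (R.sp s) = 1 ∧ R.cut s = R.sp s) ∨ (R.sp s < R.cut s ∧ R.cut s ≤ s ∧
      ((R.ev s (R.sp s) = 3 ∧ R.cut s = R.fA s (R.sp s)) ∨
      (R.ev s (R.sp s) = 5 ∧ R.cut s = R.cA s (R.sp s)))))) := by
  have h1 := h.cutS s
  have h2 := h.P_le s
  have h3 := h.P_eq s
  have h4 := @kept R h s (R.sp s)
  have h5 := @cA_bd R h s (R.sp s)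
  have h6 : R.ev s (R.sp s) = 3 → R.fA s (R.sp s) ≤ s ∧ R.sp s < R.fA s (R.sp s) := fun a =>
    ⟨(h.evA s _ (Or.inr a)).2.2.1.1, (h.evA s _ (Or.inr a)).2.2.1.2.1⟩
  split_ifs at h1 <;> omega

theorem keep {s x : ℕ} (h1 : x ≤ R.sp s) (h2 : x < R.cut s) :
    R.a (s + 1) x = R.a s x ∧ R.u (s + 1) x = R.u s x := by
  have := h.cut_cases s
  rw [h.aS s x (by omega), h.uS s x (by omega), if_pos h2, if_neg (by omega), if_neg (by omega)]
  exact ⟨rfl, rfl⟩

theorem keep_sp {s x : ℕ} (h1 : x < R.sp s) :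
    R.a (s + 1) x = R.a s x ∧ R.u (s + 1) x = R.u s x :=
  h.keep h1.le (by have := h.cut_cases s; omega)

theorem keep_kept {s x δ : ℕ} (k : 2 ≤ R.ev s δ) (hx : x ≤ δ) :
    R.a (s + 1) x = R.a s x ∧ R.u (s + 1) x = R.u s x := by
  have h1 := @kept R h s δ (by omega)
  have h2 := h.cut_cases s
  refine h.keep (by omega) ?_
  by_cases e : δ = R.sp s
  · subst e; omega
  · omega

theorem u_bd {s x : ℕ} (hu : R.u s x ≠ 0) : x < R.u s x ∧ R.u s x < s := by
  induction s with
  | zero => exact absurd (h.out 0 x (by omega)).2.1 hu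
  | succ s ih =>
    rcases lt_trichotomy x s with c | rfl | c
    · rw [h.uS s x c] at hu ⊢
      split_ifs at hu ⊢ <;> omega
    · exact absurd (h.new x).2.2.2.1 hu
    · exact absurd (h.out _ x c).2.1 hu

theorem u_fix {s x : ℕ} (hu : R.u s x ≠ 0) : R.u (s + 1) x = R.u s x := by
  have := h.u_bd hu
  rw [h.uS s x (by omega), if_neg (by omega)]

theorem live_u {s δ : ℕ} (l : R.st s δ ≠ 0) :
    R.u s δ = 0 ∧ R.b s δ = false ∧ ∀ x ≤ δ, R.u s x ≤ δ := by
  induction s with
  | zero => exact absurd (h.live_lt l) (by omega)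
  | succ s ih =>
    rcases Nat.lt_succ_iff_lt_or_eq.1 (h.live_lt l) with c | rfl
    · have k := (h.kept_iff c).1 l
      obtain ⟨a1, a2, a3⟩ := ih (h.kept (by omega)).2.1
      refine ⟨(h.keep_kept k le_rfl).2.trans a1, ?_, fun x hx => (h.keep_kept k hx).2 ▸ a3 x hx⟩
      have := h.bS s δ c
      cases e : R.b (s + 1) δ
      · rfl
      · simp [e, a2, l] at this
    · refine ⟨(h.new δ).2.2.2.1, (h.new δ).2.2.2.2, fun x _ => ?_⟩
      have := @u_bd R h (δ + 1) x
      omega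

theorem grow {s y : ℕ} (hy : R.a s y = true)
    (c : ¬(R.ev s (R.sp s) = 5 ∧ R.sp s < y ∧ y < R.cut s)) : R.a (s + 1) y = true := by
  have : y < s := by
    by_contra hn
    simp [(h.out s y (not_lt.1 hn)).2.2.1] at hy
  rw [h.aS s y this]
  split_ifs <;> tauto

end Spec

end Pool.Agent.P.MP_471da3_lc.D
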