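import Pool.Agent.P.MP_471da3_lc.D.Tools

/-!
The data of the construction and the equations they satisfy.
-/

namespace Pool.Agent.P.MP_471da3_lc.D

open Pool.Agent.Lib.Comp Filter Encodable MeasureTheory
open scoped ENNReal

/-- `x` is a level: it is outside the set and no smaller element of the set jumps over it. -/
def lev (a : ℕ → Bool) (u : ℕ → ℕ) (x : ℕ) : Prop :=
  a x = false ∧ ∀ y < x, a y = true → u y ≤ x

structure Data where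
  (par dep k lab sp cut : ℕ → ℕ)
  (st cA cB u ev cur thr dp lt fA fB : ℕ → ℕ → ℕ)
  dl : ℕ → ℕ → List ℕ
  wA : ℕ → ℕ → ℕ → Bool
  (a b : ℕ → ℕ → Bool)

namespace Data
variable (R : Data)

def idx (p : ℕ) : ℕ := (R.dep p).unpair.1

def okA (s p c : ℕ) : Prop :=
  c ≤ s ∧ p < c ∧ (c = s ∨ R.st s c ≠ 0) ∧ Bel R.lab p c (lev (R.a s) (R.u s)) (R.idx p) ∧
    ∀ z < (R.dl s p).length, (V (R.idx p).unpair.1 s (R.a s) c z).isSome = true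

def okB (s p c : ℕ) : Prop :=
  c ≤ s ∧ p < c ∧ Bel R.lab p c (fun x => R.b s x = false) (Nat.pair (R.idx p) (R.k p)) ∧
    ∀ z < (R.dl s p).length + 1, (V (R.idx p).unpair.2 s (R.b s) c z).isSome = true

def agA (s p : ℕ) : Prop := ∀ z < (R.dl s p).length,
  V (R.idx p).unpair.1 s (R.a s) (R.fA s p) z = some ((R.dl s p).getD z 0)

def agB (s p : ℕ) : Prop := ∀ z < (R.dl s p).length,
  V (R.idx p).unpair.2 s (R.b s) (R.fB s p) z = some ((R.dl s p).getD z 0)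

def good (s p : ℕ) : Prop := nu (CC (R.lab p) s \ CC (R.lab p) p) ≤ 2⁻¹ ^ R.lab p

end Data

structure Spec (R : Data) : Prop where
  out : ∀ s x, s ≤ x → R.st s x = 0 ∧ R.u s x = 0 ∧ R.a s x = false ∧ R.b s x = false
  acc0 : ∀ s, R.cur s 0 = 0 ∧ R.thr s 0 = 0 ∧ R.lt s 0 = 0
  curS : ∀ s p, R.cur s (p + 1) = if R.ev s p = 4 then p + 1 else R.cur s p
  thrS : ∀ s p, R.thr s (p + 1) = if R.ev s p = 2 ∨ R.ev s p = 4 then p + 1 else R.thr s p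
  dpS : ∀ s p, R.dp s (p + 1) =
    if 2 ≤ R.ev s p ∧ R.par p = R.cur s p then R.dep p + 1 else R.dp s p
  ltS : ∀ s p, R.lt s (p + 1) = if 2 ≤ R.ev s p then p + 1 else R.lt s p
  P_le : ∀ s, R.sp s ≤ s
  P_lt : ∀ s p, p < R.sp s → R.ev s p ≠ 1 ∧ R.ev s p ≠ 3 ∧ R.ev s p ≠ 5
  P_eq : ∀ s, R.sp s < s → R.ev s (R.sp s) = 1 ∨ R.ev s (R.sp s) = 3 ∨ R.ev s (R.sp s) = 5
  ev_le : ∀ s p, R.ev s p ≤ 6
  ev0 : ∀ s p, R.ev s p = 0 ↔ R.sp s < p ∨ R.st s p = 0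
  ev1 : ∀ s p, R.ev s p = 1 → R.par p < R.thr s p ∨ ¬R.good s p
  evk : ∀ s p, 2 ≤ R.ev s p → R.thr s p ≤ R.par p ∧ (R.thr s p = R.cur s p → R.good s p)
  evA : ∀ s p, R.ev s p = 2 ∨ R.ev s p = 3 → R.st s p = 3 ∧ R.thr s p = R.cur s p ∧
    R.okA s p (R.fA s p) ∧ (R.ev s p = 2 ↔ R.agA s p)
  evB : ∀ s p, R.ev s p = 4 ∨ R.ev s p = 5 → R.st s p = 2 ∧ R.par p = R.cur s p ∧
    R.thr s p = R.cur s p ∧ R.okB s p (R.fB s p) ∧ (R.ev s p = 4 ↔ R.agB s p)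
  ev6 : ∀ s p, R.ev s p = 6 → R.thr s p = R.cur s p → (R.st s p = 3 → ∀ c, ¬R.okA s p c) ∧
    (R.st s p = 2 → R.par p = R.cur s p → ∀ c, ¬R.okB s p c)
  cutS : ∀ s, R.cut s = if R.ev s (R.sp s) = 1 then R.sp s else if R.ev s (R.sp s) = 3 then
    R.fA s (R.sp s) else if R.ev s (R.sp s) = 5 then R.cA s (R.sp s) else s
  stS : ∀ s x, x < s → R.st (s + 1) x = if R.ev s x ≤ 1 then 0 else if R.ev s x = 2 then 2 else
    if R.ev s x = 4 then 3 else if R.ev s x = 6 then R.st s x else 4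
  dlS : ∀ s x, x < s → R.dl (s + 1) x = if R.ev s x = 4 then R.dl s x ++
    [(V (R.idx x).unpair.2 s (R.b s) (R.fB s x) (R.dl s x).length).getD 0] else R.dl s x
  cAS : ∀ s x, x < s → R.cA (s + 1) x = if R.ev s x = 2 ∨ R.ev s x = 3 then R.fA s x else R.cA s x
  cBS : ∀ s x, x < s → R.cB (s + 1) x = if R.ev s x = 4 ∨ R.ev s x = 5 then R.fB s x else R.cB s x
  wA2 : ∀ s x, x < s → R.ev s x = 2 → ∀ y < R.fA s x, R.wA (s + 1) x y = R.a s y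
  wAS : ∀ s x, x < s → R.ev s x ≠ 2 → R.wA (s + 1) x = R.wA s x
  aS : ∀ s x, x < s → R.a (s + 1) x = if x < R.cut s then
    (if R.ev s (R.sp s) = 5 ∧ R.sp s < x then R.wA s (R.sp s) x else R.a s x) else
    (if R.u s x = 0 then true else R.a s x)
  uS : ∀ s x, x < s → R.u (s + 1) x = if R.cut s ≤ x ∧ R.u s x = 0 then s else R.u s x
  bS : ∀ s x, x < s → (R.b (s + 1) x = true ↔ R.b s x = true ∨
    (R.st (s + 1) x = 0 ∧ ∀ γ < s, 3 ≤ R.st (s + 1) γ → R.cB (s + 1) γ ≤ x))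
  parN : ∀ s, R.par s = R.cur s s
  depN : ∀ s, R.dep s = R.dp s s
  labN : ∀ s, R.lab s = R.lt s s
  kN : ∀ s, (∀ γ < s, R.st (s + 1) γ = 3 → R.idx γ = R.idx s → γ < R.k s) ∧
    (R.k s = 0 ∨ ∃ γ < s, R.st (s + 1) γ = 3 ∧ R.idx γ = R.idx s ∧ R.k s = γ + 1)
  stN : ∀ s, (R.st (s + 1) s = 1 ∧ ∃ γ < s, R.st (s + 1) γ = 4 ∧ R.idx γ = R.idx s) ∨
    (R.st (s + 1) s = 2 ∧ ∀ γ < s, R.st (s + 1) γ = 4 → R.idx γ ≠ R.idx s)
  new : ∀ s, R.dl (s + 1) s = [] ∧ R.cA (s + 1) s = s + 1 ∧ R.a (s + 1) s = false ∧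
    R.u (s + 1) s = 0 ∧ R.b (s + 1) s = false
  pa : Primrec fun q : ℕ × ℕ => R.a q.1 q.2
  pb : Primrec fun q : ℕ × ℕ => R.b q.1 q.2
  pu : Primrec fun q : ℕ × ℕ => R.u q.1 q.2
  pdl : Primrec fun q : ℕ × ℕ => R.dl q.1 q.2
  plab : Primrec R.lab

def levb (a : ℕ → Bool) (u : ℕ → ℕ) (x : ℕ) : Bool :=
  !a x && (List.range x).all fun y => !a y || leb (u y) x

theorem levb_iff {a : ℕ → Bool} {u : ℕ → ℕ} {x : ℕ} : levb a u x = true ↔ lev a u x := by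
  simp [levb, lev, imp_iff_not_or]

@[fun_prop] theorem pr_levb {α : Type*} [Primcodable α] {a : α → ℕ → Bool} {u : α → ℕ → ℕ}
    {x : α → ℕ} (h1 : Primrec fun q : α × ℕ => a q.1 q.2) (h2 : Primrec fun q : α × ℕ => u q.1 q.2)
    (h3 : Primrec x) : Primrec fun c => levb (a c) (u c) (x c) := by
  have h6 : Primrec fun c => a c (x c) := h1.comp (Primrec.id.pair h3)
  unfold levb; fun_prop

end Pool.Agent.P.MP_471da3_lc.D
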