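import Pool.Agent.P.MP_471da3_lc.D.Nu

/-!
Believable computations, small junk, domination and decoding.
-/

namespace Pool.Agent.P.MP_471da3_lc.D

open Pool.Agent.Lib.Comp Filter Encodable MeasureTheory
open scoped ENNReal

/-- The levels in `(p, c)` cover the set promised at `p` up to `2 ^ (-j)`. -/
def Bel (lab : ℕ → ℕ) (p c : ℕ) (f : ℕ → Prop) (j : ℕ) : Prop :=
  nu (CC (lab p) p \ ⋂ x ∈ {x | p < x ∧ x < c ∧ f x}, CC (lab x) x) ≤ 2⁻¹ ^ j

def bel (lab : ℕ → ℕ) (p c : ℕ) (f : ℕ → Bool) (j : ℕ) : Bool :=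
  sm (lab p) p (((List.range c).filter fun x => ltb p x && f x).map fun x => (lab x, x)) j

@[fun_prop] theorem pr_bel {α : Type*} [Primcodable α] {lab : α → ℕ → ℕ} {p c j : α → ℕ}
    {f : α → ℕ → Bool} (h1 : Primrec fun q : α × ℕ => lab q.1 q.2) (h2 : Primrec p)
    (h3 : Primrec c) (h4 : Primrec fun q : α × ℕ => f q.1 q.2) (h5 : Primrec j) :
    Primrec fun a => bel (lab a) (p a) (c a) (f a) (j a) := by
  have h6 : Primrec fun a => lab a (p a) := h1.comp (Primrec.id.pair h2)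
  unfold bel; fun_prop

theorem bel_iff {lab : ℕ → ℕ} {p c j : ℕ} {f : ℕ → Bool} :
    bel lab p c f j = true ↔ Bel lab p c (fun x => f x = true) j := by
  rw [bel, sm_iff, Bel]
  congr! 3
  ext z
  simp only [List.mem_map, List.mem_filter, List.mem_range, Bool.and_eq_true, ltb_true,
    Set.mem_iInter, Set.mem_ofPred_eq, forall_exists_index, and_imp]
  constructor
  · intro h x h1 h2 h3
    exact h _ x h2 h1 h3 rfl
  · rintro h _ x h1 h2 h3 rfl
    exact h x h2 h1 h3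

theorem Bel.mono {lab : ℕ → ℕ} {p c j : ℕ} {f g : ℕ → Prop} (h : Bel lab p c f j)
    (hg : ∀ x, p < x → x < c → g x → f x) : Bel lab p c g j := by
  refine le_trans (measure_mono (Set.sdiff_subset_sdiff_right fun z hz => ?_)) h
  simp only [Set.mem_iInter, Set.mem_ofPred_eq] at hz ⊢
  exact fun x hx => hz x ⟨hx.1, hx.2.1, hg x hx.1 hx.2.1 hx.2.2⟩

theorem Bel.congr {lab lab' : ℕ → ℕ} {p c j : ℕ} {f : ℕ → Prop} (hp : p < c)
    (h : ∀ x < c, lab x = lab' x) : Bel lab p c f j ↔ Bel lab' p c f j := by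
  have : (⋂ x ∈ {x | p < x ∧ x < c ∧ f x}, CC (lab x) x) =
      ⋂ x ∈ {x | p < x ∧ x < c ∧ f x}, CC (lab' x) x :=
    Set.iInter₂_congr fun x hx => by rw [h x hx.2.1]
  rw [Bel, Bel, this, h p hp]

theorem Bel.empty {lab : ℕ → ℕ} {p j : ℕ} {f : ℕ → Prop} : Bel lab p (p + 1) f j := by
  have : {x | p < x ∧ x < p + 1 ∧ f x} = ∅ :=
    Set.eq_empty_of_forall_notMem fun x hx => by have := hx.1; have := hx.2.1; omega
  rw [Bel, this]
  simp

/-- The levels in `Lv` eventually cover almost all total functionals. -/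
def Small (lab : ℕ → ℕ) (Lv : Set ℕ) : Prop :=
  ∀ δ : ℝ≥0∞, 0 < δ → ∀ᶠ p in atTop, nu (TT \ ⋂ x ∈ Lv ∩ Set.Ici p, CC (lab x) x) ≤ δ

theorem nu_biUnion_le {S : Set ℕ} (hS : S.Subsingleton) {T : ℕ → Set (ℕ × (ℕ → Bool))}
    {δ : ℝ≥0∞} (h : ∀ p ∈ S, nu (T p) ≤ δ) : nu (⋃ p ∈ S, T p) ≤ δ := by
  rcases hS.eq_empty_or_singleton with rfl | ⟨x, rfl⟩
  · simp
  · simpa using h

theorem fin_of_inj {S : Set ℕ} {f : ℕ → ℕ} (h : Set.InjOn f S) (N : ℕ) :
    {p | p ∈ S ∧ f p < N}.Finite :=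
  Set.Finite.of_finite_image ((Set.finite_lt_nat N).subset (by
    rintro _ ⟨p, hp, rfl⟩; exact hp.2)) (h.mono fun _ hp => hp.1)

theorem large_of_inj {S : Set ℕ} {f : ℕ → ℕ} (h : Set.InjOn f S) (N : ℕ) :
    ∀ᶠ p in atTop, p ∈ S → N ≤ f p := by
  obtain ⟨M, hM⟩ := (fin_of_inj h N).bddAbove
  filter_upwards [eventually_gt_atTop M] with p hp hS
  by_contra hn
  exact absurd (hM ⟨hS, not_le.1 hn⟩) (not_le.2 hp)

theorem small_of {Lv Pm H : Set ℕ} {lab j c : ℕ → ℕ} (hH : H ⊆ Pm) (i1 : Set.InjOn lab Pm)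
    (i2 : Set.InjOn j H) (hV : ∀ p ∈ Pm, nu (CI (lab p) \ CC (lab p) p) ≤ 2⁻¹ ^ lab p)
    (hW : ∀ γ ∈ H, Bel lab γ (c γ) (· ∈ Lv) (j γ))
    (hL : ∀ x ∈ Lv, x ∈ Pm ∨ ∃ γ ∈ H, γ < x ∧ x < c γ) : Small lab Lv := by
  intro δ hδ
  refine junk (V := fun n => ⋃ p ∈ {p | p ∈ Pm ∧ lab p = n}, CI (lab p) \ CC (lab p) p)
    (W := fun n => ⋃ γ ∈ {γ | γ ∈ H ∧ j γ = n},
      CC (lab γ) γ \ ⋂ x ∈ {x | γ < x ∧ x < c γ ∧ x ∈ Lv}, CC (lab x) x)
    (fun n => nu_biUnion_le (fun p hp q hq => i1 hp.1 hq.1 (hp.2.trans hq.2.symm))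
      fun p hp => hp.2 ▸ hV p hp.1)
    (fun n => nu_biUnion_le (fun p hp q hq => i2 hp.1 hq.1 (hp.2.trans hq.2.symm))
      fun p hp => hp.2 ▸ hW p hp.1) (fun N => ?_) hδ
  have hf := ((fin_of_inj (i1.mono hH) N).union (fin_of_inj i2 N)).image c
  obtain ⟨M, hM⟩ := hf.bddAbove
  have kV : ∀ p ∈ Pm, N ≤ lab p → ∀ z ∈ TT, z ∉ CC (lab p) p → ∃ n, z ∈ ⋃ q ∈
      {q | q ∈ Pm ∧ lab q = n + N}, CI (lab q) \ CC (lab q) q := fun p hp hN z h1 h2 =>
    ⟨lab p - N, Set.mem_biUnion (x := p) ⟨hp, by omega⟩ ⟨Set.mem_iInter.1 h1 _, h2⟩⟩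
  filter_upwards [large_of_inj i1 N, eventually_ge_atTop M] with x h1 h2 hx z hz
  rw [Set.mem_iUnion]
  rcases hL x hx with hp | ⟨γ, hγ, g1, g2⟩
  · obtain ⟨n, hn⟩ := kV x hp (h1 hp) z hz.1 hz.2
    exact ⟨n, Or.inl hn⟩
  · have g3 : N ≤ lab γ ∧ N ≤ j γ := by
      by_contra hn
      have : c γ ≤ M := hM ⟨γ, by
        simp only [Set.mem_union, Set.mem_ofPred_eq, hγ, true_and]; omega, rfl⟩
      omega
    by_cases hc : z ∈ CC (lab γ) γ
    · refine ⟨j γ - N, Or.inr (Set.mem_biUnion (x := γ) ⟨hγ, by omega⟩ ⟨hc, fun h => hz.2 ?_⟩)⟩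
      exact Set.mem_iInter₂.1 h x ⟨g1, g2, hx⟩
    · obtain ⟨n, hn⟩ := kV γ (hH hγ) g3.1 z hz.1 hc
      exact ⟨n, Or.inl hn⟩

theorem Small.bel {lab : ℕ → ℕ} {Lv Pm : Set ℕ} (h : Small lab Lv) (i1 : Set.InjOn lab Pm)
    (j : ℕ) : ∀ᶠ p in atTop, p ∈ Pm → ∀ c, Bel lab p c (· ∈ Lv) j := by
  have hδ : (0 : ℝ≥0∞) < 2⁻¹ ^ (j + 1) := ENNReal.pow_pos (by simp) _
  obtain ⟨N, hN⟩ := eventually_atTop.1 (tail_m hδ)
  filter_upwards [h _ hδ, large_of_inj i1 N] with p h1 h2 hp c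
  have e : (2⁻¹ : ℝ≥0∞) ^ j = 2⁻¹ ^ (j + 1) + 2⁻¹ ^ (j + 1) := by
    rw [pow_succ, ← mul_add, ENNReal.inv_two_add_inv_two, mul_one]
  rw [Bel, e]
  refine le_trans (measure_mono fun z hz => ?_)
    ((measure_union_le _ _).trans (add_le_add (hN _ (h2 hp)) h1))
  by_cases ht : z ∈ TT
  · refine Or.inr ⟨ht, fun hh => hz.2 ?_⟩
    exact Set.mem_iInter₂.2 fun x hx => Set.mem_iInter₂.1 hh x ⟨hx.2.2, hx.1.le⟩
  · exact Or.inl ⟨Set.mem_iUnion.2 ⟨p, hz.1⟩, ht⟩

theorem Small.dom {lab F : ℕ → ℕ} {Lv : Set ℕ} (h : Small lab Lv) (hl : ∀ x, lab x ≤ x)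
    (hF : ∀ m, F m ∈ Lv ∧ m ≤ lab (F m)) : ∀ᵐ X ∂mu, ∀ g : ℕ → ℕ,
      TuringReducible (PFun.lift g) (chi X) → ∀ᶠ n in atTop, g n < F n := by
  set N := TT \ ⋃ p, ⋂ x ∈ Lv ∩ Set.Ici p, CC (lab x) x with hN
  have hm : MeasurableSet N := meas_TT.diff (MeasurableSet.iUnion fun p =>
    MeasurableSet.biInter (Set.to_countable _) fun x _ => meas_CC _ _)
  have h0 : nu N = 0 := by
    refine le_antisymm (le_of_forall_gt_imp_ge_of_dense fun δ hδ => ?_) zero_le
    obtain ⟨p, hp⟩ := (h δ hδ).exists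
    exact (measure_mono (Set.sdiff_subset_sdiff_right (Set.subset_iUnion _ p))).trans hp
  rw [nu_apply hm, ENNReal.tsum_eq_zero] at h0
  have h1 : ∀ᵐ X ∂mu, ∀ e, (e, X) ∉ N := ae_all_iff.2 fun e => by
    have := (mul_eq_zero.1 (h0 e)).resolve_left (by simp)
    exact measure_eq_zero_iff_ae_notMem.1 this
  filter_upwards [h1] with X hX g hg
  obtain ⟨e, he⟩ := exists_idx hg
  have ht : (e, X) ∈ TT := Set.mem_iInter.2 fun m => by
    have : ∀ᶠ t in atTop, ∀ n ∈ Set.Iic m, ∃ c ≤ t, ∃ y < t, Un e t (res X c) n = some y := by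
      rw [eventually_all_finite (Set.finite_Iic m)]
      intro n _
      obtain ⟨c, s, hs⟩ := (he n).1.exists
      filter_upwards [eventually_ge_atTop c, eventually_ge_atTop s, eventually_gt_atTop (g n)]
        with t h1 h2 h3
      exact ⟨c, h1, _, h3, Un_le h2 hs⟩
    obtain ⟨t, ht⟩ := this.exists
    exact Set.mem_iUnion.2 ⟨t, fun n hn _ => ht n hn⟩
  have := hX e
  simp only [hN, Set.mem_sdiff, ht, true_and, not_not, Set.mem_iUnion] at this
  obtain ⟨p, hp⟩ := this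
  filter_upwards [eventually_ge_atTop p, eventually_ge_atTop e] with n h2 h3
  obtain ⟨c, -, y, hy, h4⟩ := Set.mem_iInter₂.1 hp (F n)
    ⟨(hF n).1, h2.trans ((hF n).2.trans (hl _))⟩ n (hF n).2 h3
  rwa [← (he n).2 _ _ _ h4]

/-- The first convergent computation on an initial segment of length at most `c`. -/
def V (e s : ℕ) (f : ℕ → Bool) (c z : ℕ) : Option ℕ :=
  (List.range (c + 1)).findSome? fun d => Un e s (res f d) z

@[fun_prop] theorem pr_V {α : Type*} [Primcodable α] {e s c z : α → ℕ}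
    {f : α → ℕ → Bool} (h1 : Primrec e) (h2 : Primrec s)
    (h3 : Primrec fun q : α × ℕ => f q.1 q.2) (h4 : Primrec c) (h5 : Primrec z) :
    Primrec fun a => V (e a) (s a) (f a) (c a) (z a) := by
  unfold V; fun_prop

theorem V_some {e s c z y : ℕ} {f : ℕ → Bool} (h : V e s f c z = some y) :
    ∃ d ≤ c, Un e s (res f d) z = some y ∧ ∀ d' < d, Un e s (res f d') z = none := by
  unfold V at h
  induction c with
  | zero => exact ⟨0, le_rfl, by simpa using h, by simp⟩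
  | succ c ih =>
    rw [List.range_succ, List.findSome?_append] at h
    cases h1 : (List.range (c + 1)).findSome? fun d => Un e s (res f d) z with
    | none =>
      rw [h1] at h
      refine ⟨c + 1, le_rfl, by simpa using h, fun d hd => ?_⟩
      exact List.findSome?_eq_none_iff.1 h1 d (List.mem_range.2 hd)
    | some y' =>
      rw [h1] at h
      obtain ⟨d, h2, h3⟩ := ih (h1.trans (by simpa using h))
      exact ⟨d, by omega, h3⟩

theorem V_isSome {e s c d z y : ℕ} {f : ℕ → Bool} (hd : d ≤ c)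
    (h : Un e s (res f d) z = some y) : (V e s f c z).isSome = true :=
  List.findSome?_isSome_iff.2 ⟨d, List.mem_range.2 (by omega), by simp [h]⟩

theorem ev_res {D : ℕ → Bool} {f : ℕ → ℕ → Bool} (hf : ∀ x, ∀ᶠ s in atTop, f s x = D x)
    (c : ℕ) : ∀ᶠ s in atTop, ∀ x < c, f s x = D x :=
  (eventually_all_finite (Set.finite_Iio c)).2 fun x _ => hf x

theorem V_late {e : ℕ} {D : ℕ → Bool} {g : ℕ → ℕ} {f : ℕ → ℕ → Bool} (h : Idx e D g)
    (hf : ∀ x, ∀ᶠ s in atTop, f s x = D x) (z : ℕ) :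
    ∀ᶠ s in atTop, ∀ c y, V e s (f s) c z = some y → y = g z := by
  obtain ⟨k, t, ht⟩ := (h z).1.exists
  filter_upwards [ev_res hf k, eventually_ge_atTop t] with s h1 h2 c y hy
  obtain ⟨d, -, h3, h4⟩ := V_some hy
  by_cases hd : d ≤ k
  · rw [res_congr fun x hx => h1 x (by omega)] at h3
    exact (h z).2 _ _ _ h3
  · have := h4 k (by omega)
    rw [res_congr h1, Un_le h2 ht] at this
    cases this

theorem V_conv {e : ℕ} {D : ℕ → Bool} {g : ℕ → ℕ} {f : ℕ → ℕ → Bool} (h : Idx e D g)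
    (hf : ∀ x, ∀ᶠ s in atTop, f s x = D x) (n : ℕ) :
    ∀ᶠ c in atTop, ∀ᶠ s in atTop, ∀ z < n, (V e s (f s) c z).isSome = true := by
  have : ∀ᶠ c in atTop, ∀ z ∈ Set.Iio n, ∀ᶠ s in atTop, (V e s (f s) c z).isSome = true := by
    rw [eventually_all_finite (Set.finite_Iio n)]
    intro z _
    filter_upwards [(h z).1] with c ⟨t, ht⟩
    filter_upwards [ev_res hf c, eventually_ge_atTop t] with s h1 h2
    exact V_isSome le_rfl (by rw [res_congr h1]; exact Un_le h2 ht)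
  filter_upwards [this] with c hc
  exact (eventually_all_finite (Set.finite_Iio n)).2 hc

/-- A computation with use at most `c`. -/
def Cmp (e : ℕ) (f : ℕ → Bool) (c z y : ℕ) : Prop := ∃ t, ∃ d ≤ c, Un e t (res f d) z = some y

theorem Cmp.congr {e c z y : ℕ} {f f' : ℕ → Bool} (h : Cmp e f c z y) (hf : ∀ x < c, f' x = f x) :
    Cmp e f' c z y := by
  obtain ⟨t, d, h1, h2⟩ := h
  exact ⟨t, d, h1, by rw [res_congr fun x hx => hf x (by omega), h2]⟩

theorem Cmp.of_V {e s c z y : ℕ} {f : ℕ → Bool} (h : V e s f c z = some y) : Cmp e f c z y := by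
  obtain ⟨d, h1, h2, -⟩ := V_some h
  exact ⟨s, d, h1, h2⟩

theorem Cmp.idx {e c z y : ℕ} {D : ℕ → Bool} {g : ℕ → ℕ} (h : Cmp e D c z y) (hi : Idx e D g) :
    y = g z := by
  obtain ⟨t, d, -, h2⟩ := h
  exact (hi z).2 _ _ _ h2

/-- Uniform almost everywhere domination by a function of the degree of `D`. -/
def UD (D : ℕ → Bool) : Prop :=
  ∃ f : ℕ → ℕ, TuringEquivalent (PFun.lift f) (chi D) ∧ ∀ᵐ X ∂mu, ∀ g : ℕ → ℕ,
    TuringReducible (PFun.lift g) (chi X) → ∀ᶠ n in atTop, g n < f n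

theorem ud_of {lab : ℕ → ℕ} {Lv : Set ℕ} {D : ℕ → Bool} {ap l : ℕ → ℕ → Bool}
    (h : Small lab Lv) (hl : ∀ x, lab x ≤ x) (hu : ∀ m, ∃ x ∈ Lv, m ≤ lab x) (p1 : Primrec lab)
    (p2 : Primrec fun q : ℕ × ℕ => ap q.1 q.2) (p3 : Primrec fun q : ℕ × ℕ => l q.1 q.2)
    (hD : ∀ x, ∀ᶠ s in atTop, ap s x = D x)
    (loc : ∀ s x, (∀ y ≤ x, ap s y = D y) → (l s x = true ↔ x ∈ Lv)) : UD D := by
  classical
  let F : ℕ → ℕ := fun m => Nat.find (hu m)
  have hF : TuringReducible (PFun.lift F) (chi D) := by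
    refine of_searchN (fun σ m =>
      ((List.range σ.length).find? fun x => l σ.length x && leb m (lab x)).bind fun x =>
        cond ((List.range (x + 1)).all fun y => eqb (ap σ.length y) (σ.getD y false)) (some x) none)
      (by fun_prop) fun m => ⟨?_, fun k b hb => ?_⟩
    · obtain ⟨s, h1, h2⟩ := ((ev_res hD (F m + 1)).and (eventually_gt_atTop (F m))).exists
      have : (List.range s).find? (fun x => l s x && leb m (lab x)) = some (F m) := by
        rw [List.find?_range_eq_some]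
        refine ⟨?_, List.mem_range.2 h2, fun y hy => ?_⟩
        · have := Nat.find_spec (hu m)
          simp only [Bool.and_eq_true, leb_true]
          exact ⟨(loc s _ fun y hy => h1 y (by omega)).2 this.1, this.2⟩
        · have := Nat.find_min (hu m) hy
          rw [← loc s _ fun z hz => h1 z (by omega)] at this
          simpa [imp_iff_not_or] using this
      refine ⟨s, ?_⟩
      simp only [length_res, this, Option.bind_some]
      rw [List.all_eq_true.2 fun y hy => ?_]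
      · rfl
      · have := List.mem_range.1 hy
        rw [getD_res D (by omega), eqb_true, h1 y this]
    · simp only [length_res, Option.bind_eq_some_iff] at hb
      obtain ⟨x, h1, h2⟩ := hb
      rw [List.find?_range_eq_some] at h1
      cases h3 : (List.range (x + 1)).all fun y => eqb (ap k y) ((res D k).getD y false) with
      | false => rw [h3] at h2; cases h2
      | true =>
        rw [h3] at h2
        obtain rfl : x = b := by simpa using h2
        have h4 : ∀ y ≤ x, ap k y = D y := fun y hy => by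
          have := List.all_eq_true.1 h3 y (List.mem_range.2 (by omega))
          have h5 := List.mem_range.1 h1.2.1
          rwa [getD_res D (by omega), eqb_true] at this
        refine ((Nat.find_eq_iff _).2 ⟨?_, fun y hy => ?_⟩).symm
        · rw [← loc k x h4]
          simpa using h1.1
        · rw [← loc k y fun z hz => h4 z (by omega)]
          simpa [imp_iff_not_or] using h1.2.2 y hy
  refine ⟨fun n => 2 * F n + cond (D n) 1 0, ⟨?_, ?_⟩, ?_⟩
  · have h0 : Nat.RecursiveIn {chi D} (fun n => Part.some (cond (D n) 1 0 : ℕ)) :=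
      Nat.RecursiveIn.oracle (chi D) rfl
    have h1 := totIn_comp (totIn_primrec (O := {chi D})
      (f := fun m => 2 * m.unpair.1 + m.unpair.2) (by fun_prop))
      (totIn_pair (RecursiveIn.iff_nat.1 hF) h0)
    exact RecursiveIn.iff_nat.2 (h1.of_eq fun n => by simp [PFun.lift])
  · have h0 : Nat.RecursiveIn {PFun.lift fun n => 2 * F n + cond (D n) 1 0}
        (fun n => Part.some (2 * F n + cond (D n) 1 0 : ℕ)) := Nat.RecursiveIn.oracle _ rfl
    have h1 := totIn_comp (totIn_primrec (f := fun m => m % 2) (by fun_prop)) h0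
    refine RecursiveIn.iff_nat.2 (h1.of_eq fun n => ?_)
    unfold chi
    cases D n <;> simp
  · filter_upwards [h.dom hl fun m => Nat.find_spec (hu m)] with X hX g hg
    filter_upwards [hX g hg] with n hn
    change g n < F n at hn
    omega

theorem UD.not_computable {D : ℕ → Bool} (h : UD D) : ¬Computable D := by
  intro hc
  obtain ⟨f, h1, h2⟩ := h
  obtain ⟨X, hX⟩ := h2.exists
  have h3 : Partrec (chi D) :=
    (Computable.cond hc (Computable.const 1) (Computable.const 0)).partrec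
  obtain ⟨n, hn⟩ := (hX f (h1.1.trans h3.turingReducible)).exists
  exact lt_irrefl _ hn

end Pool.Agent.P.MP_471da3_lc.D
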